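import Mathlib
import Pool.Agent.Y682.StabH
import Pool.Agent.Helper891_RP.Key

/-!
# Relative squares: automorphisms that preserve the bad places act trivially on the classes
-/

set_option autoImplicit false
set_option linter.unusedSectionVars false

attribute [-instance] DivisionRing.toRatAlgebra

open NumberField IsDedekindDomain

namespace Pool.Agent.Helper891_XR

open WeierstrassCurve

open Pool.Agent.TH841.NF Pool.Agent.Y682

open Pool.Agent.Helper891_RP (norm_val exists_pls p_mem_pls)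

section pull

variable {F : Type} [Field F] [NumberField F]

lemma pull_aux {p : ℕ} [hp : Fact p.Prime] (γ : F ≃+* F) (j : F →+* PadicAlgCl p) (x : F) :
    (pls (j.comp (γ : F →+* F))).valuation F x = (pls j).valuation F (γ x) := by
  obtain ⟨c, hc, -, h1⟩ := norm_val j
  obtain ⟨c', hc', -, h2⟩ := norm_val (j.comp (γ : F →+* F))
  have hp1 : (1 : ℝ) < (p : ℝ) := by exact_mod_cast hp.out.one_lt
  have hp0 : (0 : ℝ) < (p : ℝ) := by linarith
  have key : ∀ (y : F) (k k' : ℤ), (pls j).valuation F (γ y) = WithZero.exp k →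
      (pls (j.comp (γ : F →+* F))).valuation F y = WithZero.exp k' → k * c' = k' * c := by
    intro y k k' h3 h4
    have h5 := h1 _ _ h3
    have h6 : ‖j (γ y)‖ ^ c' = (p : ℝ) ^ k' := h2 _ _ h4
    have h7 : (p : ℝ) ^ (k * c') = (p : ℝ) ^ (k' * c) := by
      rw [zpow_mul, zpow_mul, ← h5, ← h6, zpow_natCast, zpow_natCast, ← pow_mul, ← pow_mul,
        mul_comm]
    exact zpow_right_injective₀ hp0 hp1.ne' h7
  by_cases hx : x = 0
  · rw [hx, map_zero, map_zero, map_zero]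
  have hγ0 : ∀ y : F, y ≠ 0 → γ y ≠ 0 := fun y hy => (map_ne_zero_iff γ γ.injective).2 hy
  obtain ⟨π, hπ⟩ := (pls j).valuation_exists_uniformizer F
  obtain ⟨π', hπ'⟩ := (pls (j.comp (γ : F →+* F))).valuation_exists_uniformizer F
  have hπ1 : (pls j).valuation F π = WithZero.exp (-1 : ℤ) := hπ
  have hπ2 : (pls (j.comp (γ : F →+* F))).valuation F π' = WithZero.exp (-1 : ℤ) := hπ'
  have hπ0 : π ≠ 0 := by
    rintro rfl
    rw [map_zero] at hπ1
    exact WithZero.coe_ne_zero hπ1.symm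
  have hπ0' : π' ≠ 0 := by
    rintro rfl
    rw [map_zero] at hπ2
    exact WithZero.coe_ne_zero hπ2.symm
  have e1 := key π' _ (-1) (WithZero.exp_log ((Valuation.ne_zero_iff _).2 (hγ0 _ hπ0'))).symm hπ2
  have hs0 : γ.symm π ≠ 0 := (map_ne_zero_iff γ.symm γ.symm.injective).2 hπ0
  have e2 := key (γ.symm π) (-1) _ (by rw [RingEquiv.apply_symm_apply]; exact hπ1)
    (WithZero.exp_log ((Valuation.ne_zero_iff _).2 hs0)).symm
  have hcc : (c : ℤ) = c' := by
    have d1 : (c' : ℤ) ∣ c := ⟨-WithZero.log ((pls j).valuation F (γ π')), by linarith⟩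
    have d2 : (c : ℤ) ∣ c' :=
      ⟨-WithZero.log ((pls (j.comp (γ : F →+* F))).valuation F (γ.symm π)), by linarith⟩
    exact_mod_cast Nat.dvd_antisymm (by exact_mod_cast d2) (by exact_mod_cast d1)
  have e3 := key x _ _ (WithZero.exp_log ((Valuation.ne_zero_iff _).2 (hγ0 _ hx))).symm
    (WithZero.exp_log ((Valuation.ne_zero_iff _).2 hx)).symm
  have hc0 : (c' : ℤ) ≠ 0 := by exact_mod_cast hc'.ne'
  rw [hcc] at e3
  have e4 := mul_right_cancel₀ hc0 e3
  have e5 := WithZero.exp_log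
    ((Valuation.ne_zero_iff ((pls (j.comp (γ : F →+* F))).valuation F)).2 hx)
  have e6 := WithZero.exp_log ((Valuation.ne_zero_iff ((pls j).valuation F)).2 (hγ0 _ hx))
  rw [← e5, ← e4, e6]

/-- the place `v ∘ γ` -/
lemma exists_pull (γ : F ≃+* F) (v : HeightOneSpectrum (𝓞 F)) :
    ∃ w : HeightOneSpectrum (𝓞 F), ∀ x, w.valuation F x = v.valuation F (γ x) := by
  obtain ⟨p, hp, hpv⟩ := exists_prime_mem v
  have : Fact p.Prime := ⟨hp⟩
  obtain ⟨j, rfl⟩ := exists_pls (p := p) v hpv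
  exact ⟨_, pull_aux γ j⟩

/-- the places preserved -/
lemma fix_of_norm {p : ℕ} [hp : Fact p.Prime] (γ : F ≃+* F)
    (h : ∀ (j : F →+* PadicAlgCl p) (x : F), ‖j (γ x)‖ = ‖j x‖) (v : HeightOneSpectrum (𝓞 F))
    (hv : (p : 𝓞 F) ∈ v.asIdeal) (x : F) : v.valuation F (γ x) = v.valuation F x := by
  obtain ⟨j, rfl⟩ := exists_pls (p := p) v hv
  rw [← pull_aux]
  congr 2
  apply HeightOneSpectrum.ext
  ext y
  change y ∈ pid (j.comp (γ : F →+* F)) ↔ y ∈ pid j
  rw [mem_pid, mem_pid]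
  show ‖j (γ _)‖ < 1 ↔ _
  rw [h]

lemma mem_of_pull {γ : F ≃+* F} {v w : HeightOneSpectrum (𝓞 F)}
    (h : ∀ x, w.valuation F x = v.valuation F (γ x)) (n : ℕ) :
    (n : 𝓞 F) ∈ w.asIdeal ↔ (n : 𝓞 F) ∈ v.asIdeal := by
  have e : algebraMap (𝓞 F) F (n : 𝓞 F) = (n : F) := map_natCast _ _
  have h1 := w.valuation_lt_one_iff_mem (K := F) (n : 𝓞 F)
  have h2 := v.valuation_lt_one_iff_mem (K := F) (n : 𝓞 F)
  change w.valuation F (algebraMap (𝓞 F) F (n : 𝓞 F)) < 1 ↔ _ at h1
  change v.valuation F (algebraMap (𝓞 F) F (n : 𝓞 F)) < 1 ↔ _ at h2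
  rw [← h1, ← h2, h, e, map_natCast]

lemma fix_of_uniq {p : ℕ} (γ : F ≃+* F)
    (h : ∀ v w : HeightOneSpectrum (𝓞 F), (p : 𝓞 F) ∈ v.asIdeal → (p : 𝓞 F) ∈ w.asIdeal → v = w)
    (v : HeightOneSpectrum (𝓞 F)) (hv : (p : 𝓞 F) ∈ v.asIdeal) (x : F) :
    v.valuation F (γ x) = v.valuation F x := by
  obtain ⟨w, hw⟩ := exists_pull γ v
  rw [← hw, h w v ((mem_of_pull hw p).2 hv) hv]

lemma unr_pull {γ : F ≃+* F} {v w : HeightOneSpectrum (𝓞 F)}
    (h : ∀ x, w.valuation F x = v.valuation F (γ x)) {b : F} (hb : UnrC (w.valuation F) b) :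
    UnrC (v.valuation F) (γ b) := by
  obtain ⟨t, s, u, ht, e, e1, hs, hu⟩ := hb
  refine ⟨γ t, γ s, γ u, (map_ne_zero_iff γ γ.injective).2 ht, ?_, ?_, ?_, ?_⟩
  · rw [← map_pow, ← map_mul, e, map_add, map_mul, map_pow, map_ofNat]
  · rw [← map_pow, ← map_mul, ← h, e1]
  · rw [← h]; exact hs
  · rw [← h]; exact hu

end pull

section rel

variable {F : Type} [Field F] [NumberField F] [IsTotallyReal F] [Algebra ℚ F]
  [FiniteDimensional ℚ F] {A B : ℤ}

lemma totpos_comp {b : F} (hb : TotPos b) (γ : F ≃+* F) : TotPos (γ b) := by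
  intro φ
  exact hb (φ.comp (γ : F →+* F))

/-- the square of a valuation -/
lemma exp_fix {γ : F ≃+* F} {v : HeightOneSpectrum (𝓞 F)}
    (h : ∀ x, v.valuation F (γ x) = v.valuation F x) {b : F} (hb : b ≠ 0) :
    ∃ m : ℤ, v.valuation F (γ b * b) = WithZero.exp (2 * m) := by
  refine ⟨WithZero.log (v.valuation F b), ?_⟩
  rw [map_mul, h, two_mul, WithZero.exp_add, WithZero.exp_log ((Valuation.ne_zero_iff _).2 hb)]

lemma exp_mul {v : HeightOneSpectrum (𝓞 F)} {a b : F}
    (ha : ∃ m : ℤ, v.valuation F a = WithZero.exp (2 * m))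
    (hb : ∃ m : ℤ, v.valuation F b = WithZero.exp (2 * m)) :
    ∃ m : ℤ, v.valuation F (a * b) = WithZero.exp (2 * m) := by
  obtain ⟨m, hm⟩ := ha
  obtain ⟨n, hn⟩ := hb
  exact ⟨m + n, by rw [map_mul, hm, hn, ← WithZero.exp_add, mul_add]⟩

/-- a place where `2` and `B` are units -/
lemma even_good {b : F} (hb : b ≠ 0) (hL : L1 A B b) {v : HeightOneSpectrum (𝓞 F)}
    (h2 : v.valuation F 2 = 1) (hB : v.valuation F (B : F) = 1) :
    ∃ m : ℤ, v.valuation F b = WithZero.exp (2 * m) := by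
  obtain ⟨⟨s, u, hs, hs1, hu1, hC, hC1⟩, h4⟩ := gd_of_two (A := A) (B := B) h2
  refine even_b1 hb v (A := (A : F)) (B := (B : F)) ?_ hs hs1 hu1 hC (by rw [h4, hB])
  rw [map_intCast, map_intCast]
  exact hL.1 v

/-- a place where `2` and the discriminant are units -/
lemma unr_good {b : F} (hL : L2 A B b) {v : HeightOneSpectrum (𝓞 F)}
    (h2 : v.valuation F 2 = 1) (hD : v.valuation F ((A ^ 2 - 4 * B : ℤ) : F) = 1) :
    UnrC (v.valuation F) b := by
  obtain ⟨⟨s, u, hs, hs1, hu1, hC, hC1⟩, h4⟩ := gd_of_two (A := A) (B := B) h2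
  have hDF : ((A : F) ^ 2 - 4 * (B : F)) = ((A ^ 2 - 4 * B : ℤ) : F) := by
    push_cast; ring
  refine unr_b2 v (A := (A : F)) (B := (B : F)) ?_ hs hs1 hu1 hC hC1 (by rw [hDF, hD])
  rw [map_intCast, map_intCast]
  exact hL.1 v

/-- **the first class** -/
theorem rel1 (γ : F ≃+* F) (hB : 0 < B) (hA : A < 0 ∨ A ^ 2 < 4 * B)
    (hcl : Odd (Nat.card (NCl F)))
    (hγ : ∀ v : HeightOneSpectrum (𝓞 F), ((2 : 𝓞 F) ∈ v.asIdeal ∨ v.valuation F (B : F) ≠ 1) →
      ∀ x, v.valuation F (γ x) = v.valuation F x)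
    (b : Fˣ) (hL : L1 A B (b : F)) : ∃ y : Fˣ, γ (b : F) * b = (y : F) ^ 2 := by
  have hγb : γ (b : F) ≠ 0 := (map_ne_zero_iff γ γ.injective).2 b.ne_zero
  have hpos : TotPos (b : F) := by
    intro φ
    have hB' : 0 < φ (B : F) := by
      rw [map_intCast]
      exact_mod_cast hB
    refine pos_b1 (A := (A : F)) (B := (B : F)) (fun v => ?_) φ hB' ?_
    · rw [map_intCast, map_intCast]
      exact hL.2 v
    · rw [map_intCast, map_intCast]
      rcases hA with h | h
      · left; exact_mod_cast h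
      · right; exact_mod_cast h
  have hpos' : TotPos (((Units.mk0 (γ (b : F)) hγb * b : Fˣ)) : F) := by
    intro φ
    rw [Units.val_mul, Units.val_mk0, map_mul]
    exact mul_pos (totpos_comp hpos γ φ) (hpos φ)
  obtain ⟨y, hy⟩ := elt_sq hcl (Units.mk0 (γ (b : F)) hγb * b) hpos' (by
    intro v
    rw [Units.val_mul, Units.val_mk0]
    by_cases h1 : (2 : 𝓞 F) ∈ v.asIdeal ∨ v.valuation F (B : F) ≠ 1
    · exact exp_fix (hγ v h1) b.ne_zero
    · push Not at h1
      obtain ⟨h2, h3⟩ := h1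
      have h4 := val_two h2
      refine exp_mul ?_ (even_good b.ne_zero hL h4 h3)
      obtain ⟨w, hw⟩ := exists_pull γ v
      have h5 := even_good (v := w) b.ne_zero hL (by rw [hw, map_ofNat, h4])
        (by rw [hw, map_intCast, h3])
      rwa [hw] at h5)
  refine ⟨y, ?_⟩
  have h6 := congrArg Units.val hy
  rw [Units.val_mul, Units.val_mk0, Units.val_pow_eq_pow_val] at h6
  exact h6

/-- the second class at two, `A` odd -/
lemma two_odd {b : F} {v : HeightOneSpectrum (𝓞 F)}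
    (hp : (Ideal.span {(2 : 𝓞 F)}).IsPrime) (hv : (2 : 𝓞 F) ∈ v.asIdeal)
    (hodd : Odd (Module.finrank ℚ F)) (hpar : A % 2 = 1) (hn3 : B % 4 < 2)
    (hloc : ∃ z m : v.adicCompletion F, z ≠ 0 ∧
      algebraMap F (v.adicCompletion F) b * z ^ 2 = m ∧
        S2 (A : v.adicCompletion F) (B : v.adicCompletion F) m) :
    UnrC (v.valuation F) b ∨ UnrC (v.valuation F) (-b) := by
  have := charZero_adic v
  obtain ⟨z, m, hz, hzm, hm⟩ := hloc
  have hens : ∀ t : v.adicCompletion F, vv v t < vv v 4 → ∃ y, y ^ 2 = 1 + t :=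
    fun t ht => exists_sqrt v t ht
  have h2 : vv v 2 = WithZero.exp (-1 : ℤ) := by
    have h1 : (2 : v.adicCompletion F) = algebraMap F _ 2 := (map_ofNat _ 2).symm
    rw [h1, vv_coe, two_val' hp hv]
  have h21 := w2_lt_one h2
  have h41 : vv v 4 < 1 := by
    rw [w_four]
    exact mul_lt_one_of_nonneg_of_lt_one_left zero_le h21 h21.le
  -- the class `m`
  have key : UnrC (vv v) m ∨ UnrC (vv v) (-m) := by
    have hDu : UnrC (vv v) ((A : v.adicCompletion F) ^ 2 - 4 * (B : v.adicCompletion F)) := by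
      have hD1 : vv v ((A : v.adicCompletion F) ^ 2 - 4 * (B : v.adicCompletion F)) = 1 := by
        obtain ⟨k, hk⟩ : ∃ k : ℤ, A = 1 + 2 * k := ⟨(A - 1) / 2, by omega⟩
        have e : (A : v.adicCompletion F) ^ 2 - 4 * (B : v.adicCompletion F) =
            1 + 4 * ((k + k ^ 2 - B : ℤ) : v.adicCompletion F) := by
          rw [hk]; push_cast; ring
        rw [e]
        exact w_one_add (w_mul_lt_one h41 (w_int_le_one _))
      refine ⟨1, A, -B, one_ne_zero, by ring, by rw [one_pow, mul_one, hD1], w_int_le_one A, ?_⟩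
      rw [Valuation.map_neg]
      exact w_int_le_one B
    rcases hm with hm | hm | ⟨hm0, y, hy⟩
    · left
      rw [hm, ← one_pow 2]
      exact UnrC.sq one_ne_zero
    · left
      rw [hm]
      exact hDu
    · obtain ⟨k, hk⟩ : ∃ k : ℤ, B = B % 4 + 4 * k := ⟨B / 4, by omega⟩
      have hj : B % 4 = 0 ∨ B % 4 = 1 ∨ B % 4 = 2 ∨ B % 4 = 3 := by omega
      have hB4 : (B : v.adicCompletion F) = ((B % 4 : ℤ) : v.adicCompletion F) +
          4 * (k : v.adicCompletion F) := by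
        conv_lhs => rw [hk]
        push_cast
        ring
      have hcases : A % 4 = 1 ∨ A % 4 = 3 := by omega
      rcases hcases with h4 | h4
      · obtain ⟨a, ha⟩ : ∃ a : ℤ, A = 1 + 4 * a := ⟨(A - 1) / 4, by omega⟩
        refine gen_odd hens h2 (A := A) (B := B) (ε := 1) (m := a) (k := k)
          (w_int_le_one a) (by rw [ha]; push_cast; ring) (w_int_le_one k) hB4
          (Or.inl rfl) hj (fun q hq h => hres_three hp hv hodd q hq h) ?_ hm0 hy
        intro h
        exfalso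
        have h5 : (1 : v.adicCompletion F) + 1 = 0 := by
          nth_rewrite 2 [h]
          ring
        norm_num at h5
      · obtain ⟨a, ha⟩ : ∃ a : ℤ, A = -1 + 4 * a := ⟨(A + 1) / 4, by omega⟩
        refine gen_odd hens h2 (A := A) (B := B) (ε := -1) (m := a) (k := k)
          (w_int_le_one a) (by rw [ha]; push_cast; ring) (w_int_le_one k) hB4
          (Or.inr rfl) hj (fun q hq h => hres_three hp hv hodd q hq h) ?_ hm0 hy
        intro _ hj' q hq h
        omega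
  rcases key with h | h
  · left
    apply UnrC.desc
    refine h.of_eq (inv_ne_zero hz) ?_
    rw [← hzm]
    field_simp
  · right
    apply UnrC.desc
    refine h.of_eq (inv_ne_zero hz) ?_
    rw [← hzm, map_neg]
    field_simp

/-- **the second class** -/
theorem rel2 (γ : F ≃+* F) (hpar : A % 2 = 1) (hn3 : B % 4 < 2)
    (hp2 : (Ideal.span {(2 : 𝓞 F)}).IsPrime) (hodd : Odd (Module.finrank ℚ F))
    (hcl : Odd (Nat.card (NCl F)))
    (hγ : ∀ v : HeightOneSpectrum (𝓞 F), ((2 : 𝓞 F) ∈ v.asIdeal ∨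
      v.valuation F ((A ^ 2 - 4 * B : ℤ) : F) ≠ 1) →
      ∀ x, v.valuation F (γ x) = v.valuation F x)
    (b : Fˣ) (hL : L2 A B (b : F)) : ∃ y : Fˣ, γ (b : F) * b = (y : F) ^ 2 := by
  have hγb : γ (b : F) ≠ 0 := (map_ne_zero_iff γ γ.injective).2 b.ne_zero
  obtain ⟨y, hy⟩ := sq_of_unrC hcl (Units.mk0 (γ (b : F)) hγb * b) (by
    intro v
    rw [Units.val_mul, Units.val_mk0]
    obtain ⟨w, hw⟩ := exists_pull γ v
    by_cases h2 : (2 : 𝓞 F) ∈ v.asIdeal
    · have hf : ∀ x, v.valuation F x = v.valuation F (γ x) := fun x => (hγ v (Or.inl h2) x).symm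
      rcases two_odd hp2 h2 hodd hpar hn3 (hL.1 v) with h | h
      · exact (unr_pull hf h).mul h
      · have h3 := (unr_pull hf h).mul h
        rwa [map_neg, neg_mul_neg] at h3
    · by_cases h3 : v.valuation F ((A ^ 2 - 4 * B : ℤ) : F) = 1
      · have h4 := val_two h2
        have h5 := unr_good (v := w) hL (by rw [hw, map_ofNat, h4]) (by rw [hw, map_intCast, h3])
        exact (unr_pull hw h5).mul (unr_good hL h4 h3)
      · exact unr_of_exp (val_two h2) (exp_fix (hγ v (Or.inr h3)) b.ne_zero))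
  refine ⟨y, ?_⟩
  have h6 := congrArg Units.val hy
  rw [Units.val_mul, Units.val_mk0, Units.val_pow_eq_pow_val] at h6
  exact h6.symm

end rel

end Pool.Agent.Helper891_XR
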