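import Mathlib
import Pool.Agent.R431.T.AlgD
import Pool.Agent.Helper891_XR.Xa

/-!
# The vanishing theorem for `E ⊗ M`, relative to a subgroup of the Galois group
-/

set_option autoImplicit false
set_option linter.unusedSectionVars false

attribute [-instance] DivisionRing.toRatAlgebra

namespace Pool.Agent.Helper891_XR

open WeierstrassCurve NumberField IsDedekindDomain

open Pool.Agent.TH841.NF Pool.Agent.Y682 Pool.Agent.Y702.A Pool.Agent.Y65.Sham Pool.Agent.R431.T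

open Pool.Agent.TH841.SH.D (Pt act Gal Coch IsCoc IsCob LocTriv cob)

open Pool.Agent.TH841.SH (IsX isX_zero)

section grp

lemma zero_of_grp {g : ℕ} {H : Subgroup (GL (Fin g) ℤ)} [Finite H] (hodd : Odd (Nat.card H))
    (hinv : ∀ x : Fin g → ℤ, (∀ m ∈ H, (m : Matrix (Fin g) (Fin g) ℤ).mulVec x = x) → x = 0)
    {G : Type} [AddCommGroup G] {P : Fin g → G} (h2 : P + P = 0)
    (hP : ∀ m ∈ H, mat (m : Matrix (Fin g) (Fin g) ℤ) P = P) : P = 0 := by
  classical
  have : Fintype H := Fintype.ofFinite H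
  set N : Matrix (Fin g) (Fin g) ℤ :=
    ∑ m : H, ((m : GL (Fin g) ℤ) : Matrix (Fin g) (Fin g) ℤ) with hN
  have h1 : ∀ m ∈ H, (m : Matrix (Fin g) (Fin g) ℤ) * N = N := by
    intro m hm
    rw [hN, Finset.mul_sum]
    refine Fintype.sum_equiv (Equiv.mulLeft (⟨m, hm⟩ : H)) _ _ fun x => ?_
    show _ = (((⟨m, hm⟩ * x : H) : GL (Fin g) ℤ) : Matrix (Fin g) (Fin g) ℤ)
    rw [Subgroup.coe_mul, Units.val_mul]
  have hN0 : N = 0 := by
    ext i j
    have h2 := hinv (fun k => N k j) (fun m hm => by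
      funext k
      have h3 := congrFun (congrFun (h1 m hm) k) j
      rw [Matrix.mul_apply] at h3
      exact h3)
    exact congrFun h2 i
  have h5 : mat N P = (Nat.card H) • P := by
    rw [hN, mat_sum, Finset.sum_congr rfl (fun (m : H) _ => hP m.1 m.2), Finset.sum_const,
      Finset.card_univ, Nat.card_eq_fintype_card]
  rw [hN0, mat_zero] at h5
  obtain ⟨n, hn⟩ := hodd
  rw [hn, add_smul, one_smul, mul_comm, mul_smul, two_smul, h2, smul_zero, zero_add] at h5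
  exact h5.symm

variable {g : ℕ} {K : Type} [Field K] [NumberField K] [Algebra ℚ K]
  {R : Gal ℚ →* GL (Fin g) ℤ} (e : AlgebraicClosure K ≃+* Qb)

lemma card_map (hR : ∀ σ : Gal ℚ, Fx e σ → R σ = 1) (hodd : Odd (Module.finrank ℚ K))
    (U : Subgroup (Gal ℚ)) : Finite (U.map R) ∧ Odd (Nat.card (U.map R)) := by
  have h1 : (HF e).index = Module.finrank ℚ K := by
    rw [Subgroup.index, Nat.card_eq_fintype_card, card_coset e]
  have h2 : HF e ≤ R.ker := fun σ hσ => hR σ hσ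
  have h3 : R.ker.index ∣ Module.finrank ℚ K := by
    rw [← h1]
    exact Subgroup.index_dvd_of_le h2
  have h4 : Nat.card R.range = R.ker.index := (Subgroup.index_ker R).symm
  have hf : Module.finrank ℚ K ≠ 0 := by
    intro h0
    rw [h0] at hodd
    exact absurd hodd (by decide)
  have h5 : Nat.card R.range ≠ 0 := by
    rw [h4]
    intro h0
    rw [h0, zero_dvd_iff] at h3
    exact hf h3
  have hfin : Finite R.range := Nat.finite_of_card_ne_zero h5
  have hle : U.map R ≤ R.range := Subgroup.map_le_range R U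
  have h6 : Nat.card (U.map R) ∣ Nat.card R.range := Subgroup.card_dvd_of_le hle
  refine ⟨Finite.of_injective (Subgroup.inclusion hle) (Subgroup.inclusion_injective hle), ?_⟩
  rw [h4] at h6
  obtain ⟨k, hk⟩ := h6.trans h3
  rw [hk] at hodd
  exact (Nat.odd_mul.1 hodd).1

lemma fx_conj {γ : K ≃+* K} {σ0 : Gal ℚ} (hσ : ∀ x : K, σ0 (em e x) = em e (γ x)) {h : Gal ℚ}
    (hh : Fx e h) : Fx e (σ0 * h * σ0⁻¹) := by
  intro x
  show σ0 (h (σ0⁻¹ (em e x))) = em e x
  have h1 : σ0⁻¹ (em e x) = em e (γ.symm x) := by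
    show σ0.symm (em e x) = _
    rw [AlgEquiv.symm_apply_eq, hσ, RingEquiv.apply_symm_apply]
  rw [h1]
  have h2 : h (em e (γ.symm x)) = em e (γ.symm x) := hh _
  rw [h2, hσ, RingEquiv.apply_symm_apply]

/-- Kummer theory and conjugation -/
lemma kum_conj {b : K} (hb : b ≠ 0) {γ : K ≃+* K} {σ0 : Gal ℚ}
    (hσ : ∀ x : K, σ0 (em e x) = em e (γ x)) {y : K} (hy : γ b * b = y ^ 2)
    {s : AlgebraicClosure K} (hs : s ^ 2 = algebraMap K _ b) {h : Gal ℚ} (hh : Fx e h) {ε : Qb}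
    (hε : ε = 1 ∨ ε = -1) (h1 : h (e s) = ε * e s) : (σ0 * h * σ0⁻¹) (e s) = ε * e s := by
  have hs0 : e s ≠ 0 := by
    intro h0
    rw [map_eq_zero_iff e e.injective] at h0
    rw [h0, zero_pow two_ne_zero, eq_comm, map_eq_zero] at hs
    exact hb hs
  have hS : (e s) ^ 2 = em e b := by
    rw [← map_pow, hs]
    rfl
  have hσS : σ0 (e s) ≠ 0 := (map_ne_zero_iff σ0 σ0.injective).2 hs0
  obtain ⟨c, hc⟩ : ∃ c : K, e s * σ0 (e s) = em e c := by
    have h2 : (e s * σ0 (e s)) ^ 2 = (em e y) ^ 2 := by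
      rw [mul_pow, hS, ← map_pow σ0, hS, hσ, ← map_mul, mul_comm, hy, map_pow]
    rcases sq_eq_sq_iff_eq_or_eq_neg.1 h2 with h3 | h3
    · exact ⟨y, h3⟩
    · exact ⟨-y, by rw [h3, map_neg]⟩
  have h2 : (σ0 * h * σ0⁻¹) (em e c) = em e c := fx_conj e hσ hh c
  have h3 : (σ0 * h * σ0⁻¹) (σ0 (e s)) = ε * σ0 (e s) := by
    show σ0 (h (σ0⁻¹ (σ0 (e s)))) = _
    have h4 : σ0⁻¹ (σ0 (e s)) = e s := σ0.symm_apply_apply _
    rw [h4, h1, map_mul]
    congr 1
    rcases hε with rfl | rfl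
    · exact map_one σ0
    · rw [map_neg, map_one]
  rw [← hc, map_mul, h3] at h2
  have h4 : (σ0 * h * σ0⁻¹) (e s) * ε = e s := by
    apply mul_right_cancel₀ hσS
    rw [mul_assoc]
    exact h2
  rcases hε with rfl | rfl
  · rw [mul_one] at h4
    rw [h4, one_mul]
  · rw [mul_neg_one] at h4
    rw [neg_one_mul]
    exact neg_eq_iff_eq_neg.1 h4

/-- the characters are invariant -/
lemma kum_iff {b : K} (hb : b ≠ 0) {γ : K ≃+* K} {σ0 : Gal ℚ}
    (hσ : ∀ x : K, σ0 (em e x) = em e (γ x)) {y : K} (hy : γ b * b = y ^ 2)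
    {s : AlgebraicClosure K} (hs : s ^ 2 = algebraMap K _ b) {p : Gal ℚ → Prop}
    (hp : ∀ h, Fx e h → (p h → h (e s) = e s) ∧ (¬ p h → h (e s) = -e s)) {h : Gal ℚ}
    (hh : Fx e h) : p (σ0 * h * σ0⁻¹) ↔ p h := by
  have hs0 : e s ≠ 0 := by
    intro h0
    rw [map_eq_zero_iff e e.injective] at h0
    rw [h0, zero_pow two_ne_zero, eq_comm, map_eq_zero] at hs
    exact hb hs
  have hne : e s ≠ -e s := by
    intro h0
    have h1 : (2 : Qb) * e s = 0 := by linear_combination h0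
    rcases mul_eq_zero.1 h1 with h2 | h2
    · exact two_ne_zero h2
    · exact hs0 h2
  have h1 := hp _ (fx_conj e hσ hh)
  have h2 := hp _ hh
  by_cases h3 : p h
  · have h4 := kum_conj e hb hσ hy hs hh (ε := 1) (Or.inl rfl) (by rw [h2.1 h3, one_mul])
    refine ⟨fun _ => h3, fun _ => ?_⟩
    by_contra h5
    rw [h1.2 h5, one_mul] at h4
    exact hne h4.symm
  · have h4 := kum_conj e hb hσ hy hs hh (ε := -1) (Or.inr rfl) (by rw [h2.2 h3, neg_one_mul])
    refine ⟨fun h5 => ?_, fun h5 => absurd h5 h3⟩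
    rw [h1.1 h5, neg_one_mul] at h4
    exact absurd h4 hne

end grp

section main

variable {g : ℕ} {W : WeierstrassCurve ℤ} {K : Type} [Field K] [NumberField K]
  [Algebra ℚ K] {R : Gal ℚ →* GL (Fin g) ℤ} (e : AlgebraicClosure K ≃+* Qb)
  (hW : Sc (algebraMap ℚ K) 1 (EQ W) (W.map (Int.castRingHom K)))
  (hR : ∀ σ : Gal ℚ, Fx e σ → R σ = 1)

/-- cocycles whose restrictions to `K` are locally trivial -/
def HS (R : Gal ℚ →* GL (Fin g) ℤ) (t : Gal ℚ → PP g W) : Prop :=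
  (∀ σ τ, t (σ * τ) = t σ + aA W R σ (t τ)) ∧
    ∀ i, rs hW e (coord t i) ∈ Pool.Agent.TH841.NF.D.shaCoc (W.map (Int.castRingHom K))

include hR in
lemma HS.cob (S : PP g W) : HS e hW R (fun σ => aA W R σ S - S) := by
  refine ⟨fun σ τ => ?_, fun i => ?_⟩
  · show aA W R (σ * τ) S - S = aA W R σ S - S + aA W R σ (aA W R τ S - S)
    rw [aA_mul, map_sub]
    abel
  · have h1 : rs hW e (coord (fun σ => aA W R σ S - S) i) =
        fun σ => act (W.map (Int.castRingHom K)) σ.toAlgHom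
          (tm (sc_any' hW (e.symm : Qb →+* AlgebraicClosure K)) (S i)) -
          tm (sc_any' hW (e.symm : Qb →+* AlgebraicClosure K)) (S i) := by
      funext σ
      show tm (sc_any' hW (e.symm : Qb →+* AlgebraicClosure K))
        ((aA W R (cQ e σ) S - S) i) = _
      rw [Pi.sub_apply, aA_of_one W R (hR _ (cQ_fx e σ)), map_sub, rs_act hW]
    rw [h1]
    exact ⟨cob_coc _, fun _ => cob_loc _ _, fun _ => cob_loc _ _⟩

variable {e hW}

lemma HS.sub {t t' : Gal ℚ → PP g W} (h : HS e hW R t) (h' : HS e hW R t') :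
    HS e hW R (fun σ => t σ - t' σ) := by
  refine ⟨fun σ τ => ?_, fun i => ?_⟩
  · show t (σ * τ) - t' (σ * τ) = t σ - t' σ + aA W R σ (t τ - t' τ)
    rw [h.1, h'.1, map_sub]
    abel
  · have h1 : rs hW e (coord (fun σ => t σ - t' σ) i) =
        rs hW e (coord t i) - rs hW e (coord t' i) := by
      funext σ
      exact map_sub (tm (sc_any' hW (e.symm : Qb →+* AlgebraicClosure K))) _ _
    rw [h1]
    exact sub_mem (h.2 i) (h'.2 i)

lemma HS.nsmul {t : Gal ℚ → PP g W} (h : HS e hW R t) (n : ℕ) :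
    HS e hW R (fun σ => n • t σ) := by
  refine ⟨fun σ τ => ?_, fun i => ?_⟩
  · show n • t (σ * τ) = n • t σ + aA W R σ (n • t τ)
    rw [h.1, map_nsmul, smul_add]
  · have h1 : rs hW e (coord (fun σ => n • t σ) i) = n • rs hW e (coord t i) := by
      funext σ
      exact map_nsmul (tm (sc_any' hW (e.symm : Qb →+* AlgebraicClosure K))) _ _
    rw [h1]
    exact nsmul_mem (h.2 i) n

variable (e hW)

lemma conj_val {t : Gal ℚ → PP g W} (hc : ∀ σ τ, t (σ * τ) = t σ + aA W R σ (t τ))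
    (σ h : Gal ℚ) : t (σ * h * σ⁻¹) = t σ + aA W R σ (t h) - aA W R (σ * h * σ⁻¹) (t σ) := by
  have h1 := hc (σ * h * σ⁻¹) σ
  rw [inv_mul_cancel_right, hc] at h1
  rw [h1]
  abel

/-- averaging modulo a stable subgroup -/
lemma avgV (V : AddSubgroup (PP g W)) (hV : ∀ σ, ∀ x ∈ V, aA W R σ x ∈ V)
    (hodd : Odd (Module.finrank ℚ K)) {t : Gal ℚ → PP g W}
    (hc : ∀ σ τ, t (σ * τ) = t σ + aA W R σ (t τ)) (h2 : ∀ σ, t σ + t σ = 0)
    (h0 : ∀ σ, Fx e σ → t σ ∈ V) :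
    ∃ S : PP g W, S + S = 0 ∧ ∀ σ, t σ - (aA W R σ S - S) ∈ V := by
  classical
  set Z : PP g W := ∑ q : Gal ℚ ⧸ HF e, t (sec (HF e) q) with hZ
  have hZ2 : Z + Z = 0 := by
    rw [hZ, ← Finset.sum_add_distrib]
    exact Finset.sum_eq_zero fun q _ => h2 _
  refine ⟨-Z, by rw [← neg_add, hZ2, neg_zero], fun σ => ?_⟩
  have h1 : ∀ q : Gal ℚ ⧸ HF e, aA W R σ (t (sec (HF e) q)) -
      (t (sec (HF e) (σ • q)) - t σ) ∈ V := by
    intro q
    have h3 := hc σ (sec (HF e) q)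
    have h4 := hc (sec (HF e) (σ • q)) ((sec (HF e) (σ • q))⁻¹ * σ * sec (HF e) q)
    have h5 : sec (HF e) (σ • q) * ((sec (HF e) (σ • q))⁻¹ * σ * sec (HF e) q) =
        σ * sec (HF e) q := by group
    rw [h5, h3] at h4
    have h6 : aA W R σ (t (sec (HF e) q)) - (t (sec (HF e) (σ • q)) - t σ) =
        aA W R (sec (HF e) (σ • q)) (t ((sec (HF e) (σ • q))⁻¹ * σ * sec (HF e) q)) := by
      have h7 : aA W R (sec (HF e) (σ • q)) (t ((sec (HF e) (σ • q))⁻¹ * σ * sec (HF e) q)) =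
        t σ + aA W R σ (t (sec (HF e) q)) - t (sec (HF e) (σ • q)) := by
        rw [h4]
        abel
      rw [h7]
      abel
    rw [h6]
    exact hV _ _ (h0 _ (mem_H (sec_spec (HF e)) σ q))
  have h3 : aA W R σ Z - (Z - (Module.finrank ℚ K) • t σ) ∈ V := by
    have h4 := sum_mem (t := (Finset.univ : Finset (Gal ℚ ⧸ HF e))) (fun q _ => h1 q)
    have h5 : ∑ q : Gal ℚ ⧸ HF e, (aA W R σ (t (sec (HF e) q)) -
        (t (sec (HF e) (σ • q)) - t σ)) = aA W R σ Z - (Z - (Module.finrank ℚ K) • t σ) := by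
      rw [Finset.sum_sub_distrib, Finset.sum_sub_distrib, Finset.sum_const, Finset.card_univ,
        card_coset e, hZ, map_sum]
      congr 2
      exact Equiv.sum_comp (MulAction.toPerm σ : Equiv.Perm (Gal ℚ ⧸ HF e))
        (fun q : Gal ℚ ⧸ HF e => t (sec (HF e) q))
    rwa [h5] at h4
  obtain ⟨n, hn⟩ := hodd
  have h4 : (Module.finrank ℚ K) • t σ = t σ := by
    rw [hn, add_smul, one_smul, mul_comm, mul_smul, two_smul, h2, smul_zero, zero_add]
  rw [h4] at h3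
  have h5 : t σ - (aA W R σ (-Z) - -Z) = (aA W R σ Z - (Z - t σ)) := by
    rw [map_neg]
    abel
  rw [h5]
  exact h3

section cls

variable {A B : ℤ} (hTQ : IsT (EQ W) (A : ℚ) (B : ℚ))

/-- the tuples of points killed by two with abscissa zero -/
noncomputable def VT : AddSubgroup (PP g W) := AddSubgroup.pi Set.univ (fun _ => torsT hTQ)

lemma mem_VT {x : PP g W} : x ∈ VT hTQ ↔ ∀ i, x i ∈ torsT hTQ := by
  unfold VT
  rw [AddSubgroup.mem_pi]
  simp

lemma act_torsT {Q : Pt (EQ W) Qb} (hQ : Q ∈ torsT hTQ) (σ : Gal ℚ) :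
    act (EQ W) σ.toAlgHom Q = Q := by
  have h1 : act (EQ W) σ.toAlgHom Q + act (EQ W) σ.toAlgHom Q = 0 := by
    rw [← map_add, hQ.1, map_zero]
  have h2 := (act_isX (EQ W) σ.toAlgHom Q).2 hQ.2
  by_cases h3 : Q = 0
  · rw [h3, map_zero]
  · refine isX_ext hTQ h1 hQ.1 h2 hQ.2 ?_ h3
    intro h4
    rcases pt_zero_or Q with h6 | ⟨u, v, hn, h6⟩
    · exact h3 h6
    · rw [h6, act_sm] at h4
      exact absurd h4 (sm_ne_zero _)

lemma VT_stab (R : Gal ℚ →* GL (Fin g) ℤ) (σ : Gal ℚ) (x : PP g W) (hx : x ∈ VT hTQ) :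
    aA W R σ x ∈ VT hTQ := by
  rw [mem_VT] at hx ⊢
  intro i
  show ∑ j, (R σ : Matrix (Fin g) (Fin g) ℤ) i j • act (EQ W) σ.toAlgHom (x j) ∈ _
  refine sum_mem fun j _ => zsmul_mem ?_ _
  rw [act_torsT hTQ (hx j)]
  exact hx j

lemma aA_VT {σ : Gal ℚ} {x : PP g W} (hx : x ∈ VT hTQ) :
    aA W R σ x = mat (R σ : Matrix (Fin g) (Fin g) ℤ) x := by
  rw [aA_apply]
  congr 1
  funext j
  exact act_torsT hTQ ((mem_VT hTQ).1 hx j) σ

end cls

end main

end Pool.Agent.Helper891_XR
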