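import Mathlib
import Pool.Agent.Helper891_XR.Xb

/-!
# The vanishing theorem, the points and the Tate-Shafarevich group
-/

set_option autoImplicit false
set_option linter.unusedSectionVars false

attribute [-instance] DivisionRing.toRatAlgebra

namespace Pool.Agent.Helper891_XR

open WeierstrassCurve NumberField IsDedekindDomain

open Pool.Agent.TH841.NF Pool.Agent.Y682 Pool.Agent.Y702.A Pool.Agent.Y65.Sham Pool.Agent.R431.T

open Pool.Agent.TH841.SH.D (Pt act Gal Coch IsCoc IsCob LocTriv cob)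

open Pool.Agent.TH841.SH (IsX isX_zero)

section main

variable {g : ℕ} {W : WeierstrassCurve ℤ} {K : Type} [Field K] [NumberField K]
  [Algebra ℚ K] {R : Gal ℚ →* GL (Fin g) ℤ} (e : AlgebraicClosure K ≃+* Qb)
  (hW : Sc (algebraMap ℚ K) 1 (EQ W) (W.map (Int.castRingHom K)))
  (hR : ∀ σ : Gal ℚ, Fx e σ → R σ = 1)
  {A B : ℤ} (hTQ : IsT (EQ W) (A : ℚ) (B : ℚ))
  (hT : IsT (W.map (Int.castRingHom K)) (A : K) (B : K))

/-- the automorphisms in `U` act trivially on the classes -/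
def Rel (A B : ℤ) (e : AlgebraicClosure K ≃+* Qb) (U : Subgroup (Gal ℚ)) : Prop :=
  ∀ σ ∈ U, ∃ γ : K ≃+* K, (∀ x, σ (em e x) = em e (γ x)) ∧
    (∀ b : Kˣ, L1 A B (b : K) → ∃ y : Kˣ, γ (b : K) * b = (y : K) ^ 2) ∧
    (∀ b : Kˣ, L2 A B (b : K) → ∃ y : Kˣ, γ (b : K) * b = (y : K) ^ 2)

lemma sub_torsT {P Q : Pt (EQ W) Qb} (hP : P + P = 0) (hQ : Q + Q = 0)
    (h : IsX ((EQ W).baseChange Qb) 0 P ↔ IsX ((EQ W).baseChange Qb) 0 Q) :
    P - Q ∈ torsT hTQ := by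
  have h1 : P - Q = P + Q := by
    rw [sub_eq_add_neg]
    congr 1
    exact neg_eq_of_add_eq_zero_left hQ
  rw [h1]
  refine ⟨?_, (isX_add hTQ hP hQ).2 h⟩
  have h2 : P + Q + (P + Q) = (P + P) + (Q + Q) := by abel
  rw [h2, hP, hQ, add_zero]

lemma act_sub_torsT {Q : Pt (EQ W) Qb} (hQ : Q + Q = 0) (σ : Gal ℚ) :
    act (EQ W) σ.toAlgHom Q - Q ∈ torsT hTQ := by
  refine ⟨?_, isX_sub hTQ hQ σ⟩
  have h4 : (act (EQ W) σ.toAlgHom Q - Q) + (act (EQ W) σ.toAlgHom Q - Q) =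
      act (EQ W) σ.toAlgHom (Q + Q) - (Q + Q) := by rw [map_add]; abel
  rw [h4, hQ, map_zero, sub_zero]

lemma eq_torsT {P Q : Pt (EQ W) Qb} (hP : P ∈ torsT hTQ) (hQ : Q ∈ torsT hTQ)
    (h : P = 0 ↔ Q = 0) : P = Q := by
  by_cases h1 : P = 0
  · rw [h1, h.1 h1]
  · exact isX_ext hTQ hP.1 hQ.1 hP.2 hQ.2 h1 (fun h2 => h1 (h.2 h2))

lemma mat_sub_aA {x : PP g W} (hx : x + x = 0) (σ : Gal ℚ) :
    aA W R σ x - mat (R σ : Matrix (Fin g) (Fin g) ℤ) x ∈ VT hTQ := by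
  rw [mem_VT]
  intro i
  have h1 : (aA W R σ x - mat (R σ : Matrix (Fin g) (Fin g) ℤ) x) i =
      ∑ j, (R σ : Matrix (Fin g) (Fin g) ℤ) i j • (act (EQ W) σ.toAlgHom (x j) - x j) := by
    show (∑ j, (R σ : Matrix (Fin g) (Fin g) ℤ) i j • act (EQ W) σ.toAlgHom (x j)) -
      (∑ j, (R σ : Matrix (Fin g) (Fin g) ℤ) i j • x j) = _
    rw [← Finset.sum_sub_distrib]
    exact Finset.sum_congr rfl fun j _ => by rw [smul_sub]
  rw [h1]
  exact sum_mem fun j _ => zsmul_mem (act_sub_torsT hTQ (congrFun hx j) σ) _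

lemma rs_two {t : Gal ℚ → PP g W} (h2 : ∀ σ, t σ + t σ = 0) (i : Fin g) (σ : Gal K) :
    rs hW e (coord t i) σ + rs hW e (coord t i) σ = 0 := by
  have h3 : t (cQ e σ) i + t (cQ e σ) i = 0 := congrFun (h2 (cQ e σ)) i
  show tm (sc_any' hW (e.symm : Qb →+* AlgebraicClosure K)) (t (cQ e σ) i) +
    tm (sc_any' hW (e.symm : Qb →+* AlgebraicClosure K)) (t (cQ e σ) i) = 0
  rw [← map_add, h3, map_zero]

lemma rs_val {t : Gal ℚ → PP g W} (i : Fin g) {h : Gal ℚ} (hh : Fx e h) :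
    tm (sc_any hW (e : AlgebraicClosure K →+* Qb)) (rs hW e (coord t i) (cF e h)) = t h i :=
  tr_rs hW e (coord t i) hh

include hT in
/-- the first class is invariant -/
lemma cls1 {U : Subgroup (Gal ℚ)} (hU : Rel A B e U) {t : Gal ℚ → PP g W}
    (ht : HS e hW R t) (h2 : ∀ σ, t σ + t σ = 0) {σ0 : Gal ℚ} (hσ0 : σ0 ∈ U) {h : Gal ℚ}
    (hh : Fx e h) (i : Fin g) :
    IsX ((EQ W).baseChange Qb) 0 (t (σ0 * h * σ0⁻¹) i) ↔
      IsX ((EQ W).baseChange Qb) 0 (t h i) := by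
  obtain ⟨γ, hγ, hg1, -⟩ := hU σ0 hσ0
  have hfs : Pool.Agent.TH841.NF.D.IsShaCoc (W.map (Int.castRingHom K))
    (rs hW e (coord t i)) := ht.2 i
  obtain ⟨b, hb, hbs, hbl⟩ := exists_b1 hT hfs.1 (rs_two e hW h2 i)
  obtain ⟨y, hy⟩ := hg1 (Units.mk0 b hb) (by
    refine ⟨fun v => ?_, fun v => ?_⟩
    · have := charZero_adic v
      have h3 := hbl _ (hfs.2.1 v)
      rwa [map_intCast, map_intCast] at h3
    · have := charZero_inf v
      have h3 := hbl v.Completion (hfs.2.2 v)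
      rwa [map_intCast, map_intCast] at h3)
  rw [Units.val_mk0] at hy
  obtain ⟨s, hs⟩ := IsAlgClosed.exists_pow_nat_eq (algebraMap K (AlgebraicClosure K) b) (n := 2)
    (by norm_num)
  refine kum_iff e hb hγ hy hs (p := fun h => IsX ((EQ W).baseChange Qb) 0 (t h i)) ?_ hh
  intro h hh
  have h3 := tm_isX (sc_any hW (e : AlgebraicClosure K →+* Qb)) (rs hW e (coord t i) (cF e h))
  rw [rs_val e hW i hh] at h3
  have h6 := hbs s hs (cF e h)
  constructor
  · intro h7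
    rw [← e_cF e hh, h6.1 (h3.1 h7)]
  · intro h7
    rw [← e_cF e hh, h6.2 (fun h8 => h7 (h3.2 h8)), map_neg]

include hT in
/-- the second class is invariant -/
lemma cls2 {U : Subgroup (Gal ℚ)} (hU : Rel A B e U) {t : Gal ℚ → PP g W}
    (ht : HS e hW R t) (hV : ∀ σ, t σ ∈ VT hTQ) {σ0 : Gal ℚ} (hσ0 : σ0 ∈ U) {h : Gal ℚ}
    (hh : Fx e h) (i : Fin g) : t (σ0 * h * σ0⁻¹) i = 0 ↔ t h i = 0 := by
  obtain ⟨γ, hγ, -, hg2⟩ := hU σ0 hσ0
  have h2 : ∀ σ, t σ + t σ = 0 := fun σ => funext fun i => ((mem_VT hTQ).1 (hV σ) i).1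
  have hfs : Pool.Agent.TH841.NF.D.IsShaCoc (W.map (Int.castRingHom K))
    (rs hW e (coord t i)) := ht.2 i
  have hX : ∀ σ, IsX ((W.map (Int.castRingHom K)).baseChange (AlgebraicClosure K)) 0
      (rs hW e (coord t i) σ) := by
    intro σ
    have h3 := tm_isX (sc_any hW (e : AlgebraicClosure K →+* Qb))
      (rs hW e (coord t i) (cF e (cQ e σ)))
    rw [rs_val e hW i (cQ_fx e σ), cF_cQ] at h3
    exact h3.1 ((mem_VT hTQ).1 (hV _) i).2
  obtain ⟨b, hb, hbs, hbl⟩ := exists_b2 hT hfs.1 (rs_two e hW h2 i) hX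
  obtain ⟨y, hy⟩ := hg2 (Units.mk0 b hb) (by
    refine ⟨fun v => ?_, fun v => ?_⟩
    · have := charZero_adic v
      have h3 := hbl _ (hfs.2.1 v)
      rwa [map_intCast, map_intCast] at h3
    · have := charZero_inf v
      have h3 := hbl v.Completion (hfs.2.2 v)
      rwa [map_intCast, map_intCast] at h3)
  rw [Units.val_mk0] at hy
  obtain ⟨s, hs⟩ := IsAlgClosed.exists_pow_nat_eq (algebraMap K (AlgebraicClosure K) b) (n := 2)
    (by norm_num)
  refine kum_iff e hb hγ hy hs (p := fun h => t h i = 0) ?_ hh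
  intro h hh
  have h3 := tm_zero_iff (sc_any hW (e : AlgebraicClosure K →+* Qb))
    (rs hW e (coord t i) (cF e h))
  rw [rs_val e hW i hh] at h3
  have h6 := hbs s hs (cF e h)
  constructor
  · intro h7
    rw [← e_cF e hh, h6.1 (h3.1 h7)]
  · intro h7
    rw [← e_cF e hh, h6.2 (fun h8 => h7 (h3.2 h8)), map_neg]

section van

variable {U : Subgroup (Gal ℚ)} (hU : Rel A B e U) (hodd : Odd (Module.finrank ℚ K))
  (hinv : ∀ x : Fin g → ℤ, (∀ σ ∈ U, (R σ : Matrix (Fin g) (Fin g) ℤ).mulVec x = x) → x = 0)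

include hT hU hR hodd hinv in
/-- the first class vanishes -/
lemma cls1_zero {t : Gal ℚ → PP g W} (ht : HS e hW R t) (h2 : ∀ σ, t σ + t σ = 0)
    {h : Gal ℚ} (hh : Fx e h) : t h ∈ VT hTQ := by
  obtain ⟨hfin, hodd'⟩ := card_map e hR hodd U
  have h3 : cw (QuotientAddGroup.mk' (torsT hTQ)) (t h) = 0 := by
    refine zero_of_grp (H := U.map R) hodd' (fun x hx => hinv x fun σ hσ => hx (R σ) ⟨σ, hσ, rfl⟩)
      ?_ ?_
    · rw [← map_add, h2, map_zero]
    · rintro _ ⟨σ0, hσ0, rfl⟩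
      obtain ⟨γ, hγ, -, -⟩ := hU σ0 hσ0
      have hh' := fx_conj e hγ hh
      rw [mat_cw]
      funext i
      show QuotientAddGroup.mk' (torsT hTQ) (mat (R σ0 : Matrix (Fin g) (Fin g) ℤ) (t h) i) =
        QuotientAddGroup.mk' (torsT hTQ) (t h i)
      rw [← sub_eq_zero, ← map_sub]
      refine (QuotientAddGroup.eq_zero_iff _).2 ?_
      have a1 := (mem_VT hTQ).1 (mat_sub_aA (R := R) hTQ (h2 h) σ0) i
      have a2 : aA W R σ0 (t h) i - t (σ0 * h * σ0⁻¹) i ∈ torsT hTQ := by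
        have h4 := act_sub_torsT hTQ (congrFun (h2 σ0) i) (σ0 * h * σ0⁻¹)
        have h5 : aA W R σ0 (t h) i - t (σ0 * h * σ0⁻¹) i =
            act (EQ W) (σ0 * h * σ0⁻¹).toAlgHom (t σ0 i) - t σ0 i := by
          rw [conj_val ht.1, ← aA_of_one W R (hR _ hh')]
          show _ - (t σ0 i + aA W R σ0 (t h) i - aA W R (σ0 * h * σ0⁻¹) (t σ0) i) = _
          abel
        rw [h5]
        exact h4
      have a3 : t (σ0 * h * σ0⁻¹) i - t h i ∈ torsT hTQ :=
        sub_torsT hTQ (congrFun (h2 _) i) (congrFun (h2 _) i)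
          (cls1 e hW hT hU ht h2 hσ0 hh i)
      have e1 : mat (R σ0 : Matrix (Fin g) (Fin g) ℤ) (t h) i - t h i =
          -((aA W R σ0 (t h) - mat (R σ0 : Matrix (Fin g) (Fin g) ℤ) (t h)) i) +
            (aA W R σ0 (t h) i - t (σ0 * h * σ0⁻¹) i) + (t (σ0 * h * σ0⁻¹) i - t h i) := by
        rw [Pi.sub_apply]
        abel
      rw [e1]
      exact add_mem (add_mem (neg_mem a1) a2) a3
  rw [mem_VT]
  intro i
  exact (QuotientAddGroup.eq_zero_iff _).1 (congrFun h3 i)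

include hT hU hR hodd hinv in
/-- the second class vanishes -/
lemma cls2_zero {t : Gal ℚ → PP g W} (ht : HS e hW R t) (hV : ∀ σ, t σ ∈ VT hTQ)
    {h : Gal ℚ} (hh : Fx e h) : t h = 0 := by
  obtain ⟨hfin, hodd'⟩ := card_map e hR hodd U
  have h2 : ∀ σ, t σ + t σ = 0 := fun σ => funext fun i => ((mem_VT hTQ).1 (hV σ) i).1
  refine zero_of_grp (H := U.map R) hodd' (fun x hx => hinv x fun σ hσ => hx (R σ) ⟨σ, hσ, rfl⟩)
    (h2 h) ?_
  rintro _ ⟨σ0, hσ0, rfl⟩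
  obtain ⟨γ, hγ, -, -⟩ := hU σ0 hσ0
  have hh' := fx_conj e hγ hh
  have h3 : t (σ0 * h * σ0⁻¹) = mat (R σ0 : Matrix (Fin g) (Fin g) ℤ) (t h) := by
    rw [conj_val ht.1, aA_VT hTQ (hV σ0), aA_VT hTQ (hV h), hR _ hh', Units.val_one, mat_one]
    abel
  rw [← h3]
  funext i
  exact eq_torsT hTQ ((mem_VT hTQ).1 (hV _) i) ((mem_VT hTQ).1 (hV _) i)
    (cls2 e hW hTQ hT hU ht hV hσ0 hh i)

include hTQ hT hU hR hodd hinv in
/-- **the vanishing theorem** -/
theorem vanish {t : Gal ℚ → PP g W} (ht : HS e hW R t) (h2 : ∀ σ, t σ + t σ = 0) :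
    ∃ S : PP g W, S + S = 0 ∧ ∀ σ, t σ = aA W R σ S - S := by
  obtain ⟨S1, hS1, h3⟩ := avgV e (VT hTQ) (VT_stab hTQ R) hodd ht.1 h2
    (fun σ hσ => cls1_zero e hW hR hTQ hT hU hodd hinv ht h2 hσ)
  have ht' : HS e hW R (fun σ => t σ - (aA W R σ S1 - S1)) :=
    HS.sub (R := R) ht (HS.cob e hW hR S1)
  have h4 : ∀ σ, Fx e σ → t σ - (aA W R σ S1 - S1) ∈ (⊥ : AddSubgroup (PP g W)) := by
    intro σ hσ
    rw [AddSubgroup.mem_bot]
    exact cls2_zero e hW hR hTQ hT hU hodd hinv ht' h3 hσ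
  have h2' : ∀ σ, (t σ - (aA W R σ S1 - S1)) + (t σ - (aA W R σ S1 - S1)) = 0 := fun σ =>
    funext fun i => ((mem_VT hTQ).1 (h3 σ) i).1
  obtain ⟨S2, hS2, h5⟩ := avgV e (⊥ : AddSubgroup (PP g W)) (fun σ x hx => by
    rw [AddSubgroup.mem_bot] at hx ⊢
    rw [hx, map_zero]) hodd ht'.1 h2' h4
  refine ⟨S1 + S2, ?_, fun σ => ?_⟩
  · have h6 : S1 + S2 + (S1 + S2) = (S1 + S1) + (S2 + S2) := by abel
    rw [h6, hS1, hS2, add_zero]
  · have h6 := AddSubgroup.mem_bot.1 (h5 σ)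
    rw [sub_eq_zero] at h6
    have h7 : t σ = (aA W R σ S2 - S2) + (aA W R σ S1 - S1) := by
      rw [← h6]
      abel
    rw [h7, map_add]
    abel

include hTQ in
lemma exists_halfP (P : PP g W) : ∃ Q : PP g W, P = Q + Q := by
  have h1 : ∀ i, ∃ Q : Pt (EQ W) Qb, P i = Q + Q := fun i => exists_half hTQ (P i)
  choose Q hQ using h1
  exact ⟨Q, funext hQ⟩

include hTQ hT hU hR hodd hinv in
/-- **the Tate-Shafarevich group** -/
theorem sha_rel {f : Gal ℚ → PP g W} (hf : HS e hW R f) (k : ℕ) :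
    ∀ P : PP g W, (∀ σ, 2 ^ k • f σ = aA W R σ P - P) → ∃ T : PP g W, ∀ σ, f σ = aA W R σ T - T := by
  induction k with
  | zero =>
    intro P hP
    refine ⟨P, fun σ => ?_⟩
    rw [← hP, pow_zero, one_smul]
  | succ k ih =>
    intro P hP
    obtain ⟨Q, rfl⟩ := exists_halfP hTQ P
    have h1 : HS e hW R (fun σ => 2 ^ k • f σ - (aA W R σ Q - Q)) :=
      HS.sub (R := R) (HS.nsmul (R := R) hf (2 ^ k)) (HS.cob e hW hR Q)
    obtain ⟨S, hS, h2⟩ := vanish e hW hR hTQ hT hU hodd hinv h1 (fun σ => by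
      have h3 := hP σ
      rw [pow_succ, mul_smul, two_smul, map_add] at h3
      have h4 : 2 ^ k • f σ - (aA W R σ Q - Q) + (2 ^ k • f σ - (aA W R σ Q - Q)) =
          2 ^ k • (f σ + f σ) - (aA W R σ Q + aA W R σ Q - (Q + Q)) := by
        rw [smul_add]
        abel
      rw [h4, h3, sub_self])
    refine ih (Q + S) fun σ => ?_
    have h3 : 2 ^ k • f σ = (aA W R σ S - S) + (aA W R σ Q - Q) := by
      rw [← h2 σ]
      abel
    rw [h3, map_add]
    abel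

include hW hTQ hT hU hR hodd hinv in
/-- the rational points are divisible by two -/
theorem pts_div {P : PP g W} (hP : P ∈ pA W R) : ∃ Q ∈ pA W R, P = 2 • Q := by
  obtain ⟨Q, rfl⟩ := exists_halfP hTQ P
  have hP' : ∀ σ : Gal ℚ, aA W R σ (Q + Q) = Q + Q := hP
  obtain ⟨S, hS, h2⟩ := vanish e hW hR hTQ hT hU hodd hinv (HS.cob e hW hR Q) (fun σ => by
    have h3 := hP' σ
    rw [map_add] at h3
    have h4 : aA W R σ Q - Q + (aA W R σ Q - Q) = (aA W R σ Q + aA W R σ Q) - (Q + Q) := by abel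
    rw [h4, h3, sub_self])
  refine ⟨Q - S, fun σ => ?_, ?_⟩
  · have h3 := h2 σ
    rw [map_sub]
    have h4 : aA W R σ Q = (aA W R σ S - S) + Q := by
      rw [← h3]
      abel
    rw [h4]
    abel
  · rw [two_nsmul]
    have h4 : Q - S + (Q - S) = (Q + Q) - (S + S) := by abel
    rw [h4, hS, sub_zero]

/-- the map from the tuples of points -/
noncomputable def jM : (Fin g → MP (W.map (Int.castRingHom K))) →+ PP g W where
  toFun Q i := tp hW e (Y682.inc (W.map (Int.castRingHom K)) (Q i))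
  map_zero' := by
    funext i
    show tp hW e (Y682.inc (W.map (Int.castRingHom K)) 0) = 0
    rw [map_zero, map_zero]
  map_add' P Q := by
    funext i
    show tp hW e (Y682.inc (W.map (Int.castRingHom K)) (P i + Q i)) = _
    rw [map_add, map_add]
    rfl

include hR in
lemma pA_le' : pA W R ≤ (jM (g := g) e hW).range := by
  classical
  intro P hP
  have hP' : ∀ σ : Gal ℚ, aA W R σ P = P := hP
  have h1 : ∀ i, ∃ Q : MP (W.map (Int.castRingHom K)),
      tp hW e (Y682.inc (W.map (Int.castRingHom K)) Q) = P i := by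
    intro i
    obtain ⟨P', h2⟩ := any_surj hW e (P i)
    have h3 : dl P' = 0 := by
      funext σ
      rw [dl_apply]
      change _ = (0 : Pt (W.map (Int.castRingHom K)) (AlgebraicClosure K))
      rw [sub_eq_zero]
      apply tm_inj (sc_any hW (e : AlgebraicClosure K →+* Qb))
      refine (tp_act hW e σ P').trans ?_
      have h4 : tp hW e P' = P i := h2
      rw [h4]
      have h5 := congrFun (hP' (cQ e σ)) i
      rw [aA_of_one W R (hR _ (cQ_fx e σ))] at h5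
      exact h5
    obtain ⟨Q, hQ⟩ := exists_inc h3
    exact ⟨Q, by rw [hQ]; exact h2⟩
  choose Q hQ using h1
  exact ⟨Q, funext hQ⟩

include hTQ hT hU hR hodd hinv hW in
/-- **the rational points** -/
theorem pts_rel : Finite (pA W R) ∧ Odd (Nat.card (pA W R)) := by
  have h1 : Module.Finite ℤ (MP (W.map (Int.castRingHom K))) := fg_MP hT
  have h2 : Module.Finite ℤ (Fin g → MP (W.map (Int.castRingHom K))) := inferInstance
  have h3 : Module.Finite ℤ (jM (g := g) e hW).range :=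
    Module.Finite.of_surjective (jM (g := g) e hW).rangeRestrict.toIntLinearMap
      (jM (g := g) e hW).rangeRestrict_surjective
  have h4 : IsNoetherian ℤ (jM (g := g) e hW).range :=
    isNoetherian_of_isNoetherianRing_of_finite ℤ _
  have hle := pA_le' e hW hR
  have h5 : Module.Finite ℤ (pA W R) := by
    refine Module.Finite.of_injective (AddSubgroup.inclusion hle).toIntLinearMap ?_
    exact AddSubgroup.inclusion_injective hle
  obtain ⟨hfin, r, hr, hrk⟩ := odd_exp (M := pA W R) (by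
    rintro ⟨P, hP⟩
    obtain ⟨Q, hQ, h6⟩ := pts_div e hW hR hTQ hT hU hodd hinv hP
    exact ⟨⟨Q, hQ⟩, Subtype.ext h6⟩)
  refine ⟨hfin, ?_⟩
  rw [← Nat.not_even_iff_odd, even_iff_two_dvd]
  intro h6
  have : Fact (Nat.Prime 2) := ⟨Nat.prime_two⟩
  obtain ⟨x, hx⟩ := exists_prime_addOrderOf_dvd_card' 2 h6
  have h7 : addOrderOf x ∣ r := addOrderOf_dvd_iff_nsmul_eq_zero.2 (hrk x)
  rw [hx] at h7
  exact (Nat.not_even_iff_odd.2 hr) (even_iff_two_dvd.2 h7)

end van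

end main

end Pool.Agent.Helper891_XR
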