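import Mathlib
import Pool.Agent.Helper891_XR.Xc

/-!
# The algebraic side for the twists of `X_0(14)`, relative form, for the model
# `y² = x (x² + 13 D x + 128 D²)`
-/

set_option autoImplicit false
set_option linter.unusedSectionVars false

attribute [-instance] DivisionRing.toRatAlgebra

namespace Pool.Agent.Helper891_XR

open WeierstrassCurve NumberField IsDedekindDomain NumberField.InfinitePlace

open Pool.Agent.TH841.NF Pool.Agent.Y682 Pool.Agent.Y702.A Pool.Agent.Y65.Sham Pool.Agent.R431.T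

open Pool.Agent.TH841.SH.D (Pt act Gal Coch IsCoc IsCob LocTriv cob)

section norm

variable {g : ℕ}

/-- the sum over a finite group without invariants -/
lemma norm_zero {H : Subgroup (GL (Fin g) ℤ)} [Fintype H]
    (hinv : ∀ x : Fin g → ℤ, (∀ m ∈ H, (m : Matrix (Fin g) (Fin g) ℤ).mulVec x = x) → x = 0) :
    ∑ m : H, ((m : GL (Fin g) ℤ) : Matrix (Fin g) (Fin g) ℤ) = 0 := by
  set N : Matrix (Fin g) (Fin g) ℤ :=
    ∑ m : H, ((m : GL (Fin g) ℤ) : Matrix (Fin g) (Fin g) ℤ) with hN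
  have h1 : ∀ m ∈ H, (m : Matrix (Fin g) (Fin g) ℤ) * N = N := by
    intro m hm
    rw [hN, Finset.mul_sum]
    refine Fintype.sum_equiv (Equiv.mulLeft (⟨m, hm⟩ : H)) _ _ fun x => ?_
    show _ = (((⟨m, hm⟩ * x : H) : GL (Fin g) ℤ) : Matrix (Fin g) (Fin g) ℤ)
    rw [Subgroup.coe_mul, Units.val_mul]
  ext i j
  have h2 := hinv (fun k => N k j) (fun m hm => by
    funext k
    have h3 := congrFun (congrFun (h1 m hm) k) j
    rw [Matrix.mul_apply] at h3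
    exact h3)
  exact congrFun h2 i

/-- the contragredient has no invariants -/
lemma dual_inv {H : Subgroup (GL (Fin g) ℤ)} [Finite H]
    (hinv : ∀ x : Fin g → ℤ, (∀ m ∈ H, (m : Matrix (Fin g) (Fin g) ℤ).mulVec x = x) → x = 0)
    (x : Fin g → ℤ) (hx : ∀ m ∈ H, ((m : GL (Fin g) ℤ) : Matrix (Fin g) (Fin g) ℤ).transpose.mulVec x = x) :
    x = 0 := by
  classical
  have : Fintype H := Fintype.ofFinite H
  have h1 := norm_zero hinv
  have h2 := congrArg (fun N => N.transpose.mulVec x) h1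
  simp only [Matrix.transpose_sum, Matrix.transpose_zero, Matrix.zero_mulVec] at h2
  rw [Matrix.sum_mulVec, Finset.sum_congr rfl (fun (m : H) _ => hx m.1 m.2), Finset.sum_const,
    Finset.card_univ] at h2
  have h3 : Fintype.card H ≠ 0 := Fintype.card_ne_zero
  exact (smul_eq_zero.1 h2).resolve_left h3

end norm

section hs

variable {g : ℕ} {W : WeierstrassCurve ℤ} {K : Type} [Field K] [NumberField K]
  [Algebra ℚ K] {R : Gal ℚ →* GL (Fin g) ℤ} (e : AlgebraicClosure K ≃+* Qb)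
  (hW : Sc (algebraMap ℚ K) 1 (EQ W) (W.map (Int.castRingHom K)))
  (hR : ∀ σ : Gal ℚ, Fx e σ → R σ = 1)

include hR in
/-- locally trivial cocycles -/
lemma hs_of {f : Gal ℚ → PP g W} (hlc : IsLocallyConstant f)
    (hc : ∀ σ τ, f (σ * τ) = f σ + aA W R σ (f τ))
    (hp : ∀ (p : ℕ) [Fact p.Prime], ∃ (_iK : Algebra ℚ ℚ_[p]),
      ∀ ι : Qb →ₐ[ℚ] AlgebraicClosure ℚ_[p],
      ∃ P : Fin g → Pt (EQ W) (AlgebraicClosure ℚ_[p]), ∀ (τ : Gal ℚ_[p]) (σ : Gal ℚ),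
        (∀ x, τ (ι x) = ι (σ x)) → R σ = 1 →
        ∀ i, act (EQ W) ι (f σ i) = act (EQ W) (τ.toAlgHom.restrictScalars ℚ) (P i) - P i)
    (hr : ∃ (_iK : Algebra ℚ ℝ), ∀ ι : Qb →ₐ[ℚ] AlgebraicClosure ℝ,
      ∃ P : Fin g → Pt (EQ W) (AlgebraicClosure ℝ), ∀ (τ : Gal ℝ) (σ : Gal ℚ),
        (∀ x, τ (ι x) = ι (σ x)) → R σ = 1 →
        ∀ i, act (EQ W) ι (f σ i) = act (EQ W) (τ.toAlgHom.restrictScalars ℚ) (P i) - P i) :
    HS e hW R f := by
  classical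
  obtain ⟨S, hS⟩ := cocA_fin W R hlc hc
  refine ⟨hc, fun i => ?_⟩
  refine ⟨?_, fun v => ?_, fun v => ?_⟩
  · apply rs_coc' hW e _ S
    · intro τ hτ
      exact congrFun (hS τ hτ) i
    · intro σ τ hσ _
      change f (σ * τ) i = f σ i + act (EQ W) σ.toAlgHom (f τ i)
      rw [hc, Pi.add_apply, aA_of_one W R (hR σ hσ)]
  · obtain ⟨p, hp0, hpv⟩ := exists_prime_mem v
    have : Fact p.Prime := ⟨hp0⟩
    obtain ⟨iK, h2⟩ := hp p
    apply rs_loc' (iK := iK) hW e (pth hpv)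
    intro ι
    obtain ⟨P, hP⟩ := h2 ι
    exact ⟨P i, fun τ σ hσ hτ => hP τ σ hτ (hR σ hσ) i⟩
  · obtain ⟨θ⟩ := exists_real_hom v
    obtain ⟨iK, h2⟩ := hr
    apply rs_loc' (iK := iK) hW e θ
    intro ι
    obtain ⟨P, hP⟩ := h2 ι
    exact ⟨P i, fun τ σ hσ hτ => hP τ σ hτ (hR σ hσ) i⟩

end hs

section main

/-- the classes of the twists -/
lemma rel_D {D : ℤ} {K : Type} [Field K] [NumberField K] [Algebra ℚ K]
    (hre : ∀ w : InfinitePlace K, w.IsReal)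
    (hcl : Odd (Nat.card (NCl K))) (hodd : Odd (Module.finrank ℚ K))
    (hp2 : (Ideal.span {((2 : ℕ) : 𝓞 K)}).IsPrime) (hp7 : (Ideal.span {((7 : ℕ) : 𝓞 K)}).IsPrime)
    (hD : Odd D) {γ : K ≃+* K}
    (hγ : ∀ p : ℕ, p.Prime → (p : ℤ) ∣ D → ∀ v : HeightOneSpectrum (𝓞 K), (p : 𝓞 K) ∈ v.asIdeal →
        ∀ x, v.valuation K (γ x) = v.valuation K x) :
    (∀ b : Kˣ, L1 (13 * D) (128 * D ^ 2) (b : K) → ∃ y : Kˣ, γ (b : K) * b = (y : K) ^ 2) ∧
    (∀ b : Kˣ, L2 (13 * D) (128 * D ^ 2) (b : K) → ∃ y : Kˣ, γ (b : K) * b = (y : K) ^ 2) := by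
  have htr : IsTotallyReal K := ⟨hre⟩
  obtain ⟨k, hk⟩ := hD
  have hd0 : D ≠ 0 := by omega
  have hd2 : 0 < D ^ 2 := by positivity
  have hp2' : (Ideal.span {(2 : 𝓞 K)}).IsPrime := by exact_mod_cast hp2
  have hfin : FiniteDimensional ℚ K := by
    have h1 : Module.finrank ℚ K ≠ 0 := by
      intro h0
      rw [h0] at hodd
      exact absurd hodd (by decide)
    exact Module.finite_of_finrank_pos (Nat.pos_of_ne_zero h1)
  -- the primes
  have hfix : ∀ p : ℕ, p.Prime → (p = 2 ∨ p = 7 ∨ (p : ℤ) ∣ D) →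
      ∀ v : HeightOneSpectrum (𝓞 K), (p : 𝓞 K) ∈ v.asIdeal →
      ∀ x, v.valuation K (γ x) = v.valuation K x := by
    intro p hp h v hv
    rcases h with rfl | rfl | h
    · exact fix_of_uniq γ (Pool.Agent.Y657.XD.uniq Nat.prime_two hp2) v hv
    · exact fix_of_uniq γ (Pool.Agent.Y657.XD.uniq (by norm_num) hp7) v hv
    · exact hγ p hp h v hv
  have h2 : ∀ v : HeightOneSpectrum (𝓞 K), (2 : 𝓞 K) ∈ v.asIdeal →
      ∀ x, v.valuation K (γ x) = v.valuation K x := by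
    intro v hv
    exact hfix 2 Nat.prime_two (Or.inl rfl) v (by rwa [Nat.cast_ofNat])
  constructor
  · intro b hb
    refine rel1 γ (by positivity) (Or.inr (by nlinarith)) hcl ?_ b hb
    rintro v (h | h)
    · exact h2 v h
    · obtain ⟨p, hp, hpc, hpv⟩ := exists_prime v _ (by positivity) h
      have hpi := Nat.prime_iff_prime_int.1 hp
      refine hfix p hp ?_ v hpv
      rcases hpi.dvd_mul.1 hpc with h3 | h3
      · left
        have h4 : (p : ℤ) ∣ 2 ^ 7 := by norm_num; exact h3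
        have h1 : p ∣ 2 := by exact_mod_cast hpi.dvd_of_dvd_pow h4
        exact (Nat.prime_dvd_prime_iff_eq hp Nat.prime_two).1 h1
      · exact Or.inr (Or.inr (hpi.dvd_of_dvd_pow h3))
  · intro b hb
    refine rel2 γ (by omega) (by omega) hp2' hodd hcl ?_ b hb
    rintro v (h | h)
    · exact h2 v h
    · have e : (13 * D) ^ 2 - 4 * (128 * D ^ 2) = -(7 ^ 3 * D ^ 2) := by ring
      obtain ⟨p, hp, hpc, hpv⟩ := exists_prime v _ (by
        rw [e, neg_ne_zero]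
        positivity) h
      rw [e, dvd_neg] at hpc
      have hpi := Nat.prime_iff_prime_int.1 hp
      refine hfix p hp ?_ v hpv
      rcases hpi.dvd_mul.1 hpc with h3 | h3
      · right; left
        have h1 : p ∣ 7 := by exact_mod_cast hpi.dvd_of_dvd_pow h3
        exact (Nat.prime_dvd_prime_iff_eq hp (by norm_num)).1 h1
      · exact Or.inr (Or.inr (hpi.dvd_of_dvd_pow h3))

/-- **the algebraic side** -/
theorem alg_W {D : ℤ} (K : Type) [Field K] [NumberField K]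
    (hre : ∀ w : InfinitePlace K, w.IsReal)
    (hcl : Odd (Nat.card (NCl K))) (hodd : Odd (@Module.finrank ℚ K _ _ (DivisionRing.toRatAlgebra (R := K)).toModule))
    (hp2 : (Ideal.span {((2 : ℕ) : 𝓞 K)}).IsPrime) (hp7 : (Ideal.span {((7 : ℕ) : 𝓞 K)}).IsPrime)
    (hD : Odd D) (U : Subgroup (Gal ℚ)) (e₀ : K →+* AlgebraicClosure ℚ)
    (hU : ∀ σ ∈ U, ∃ γ : K ≃+* K, (∀ x, σ (e₀ x) = e₀ (γ x)) ∧
      ∀ p : ℕ, p.Prime → (p : ℤ) ∣ D → ∀ v : HeightOneSpectrum (𝓞 K), (p : 𝓞 K) ∈ v.asIdeal →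
        ∀ x, v.valuation K (γ x) = v.valuation K x)
    (g : ℕ) (R : Gal ℚ →* GL (Fin g) ℤ)
    (hR₀ : ∀ σ : Gal ℚ, (∀ x : K, σ (e₀ x) = e₀ x) → R σ = 1)
    (hinv : ∀ x : Fin g → ℤ, (∀ σ ∈ U, (R σ : Matrix (Fin g) (Fin g) ℤ).mulVec x = x) → x = 0) :
    (Finite (pA (VD D) R) ∧ Odd (Nat.card (pA (VD D) R)) ∧ Finite (U.map R)) ∧
    ∀ (f : Gal ℚ → PP g (VD D)), IsLocallyConstant f →
    (∀ σ τ, f (σ * τ) = f σ + aA (VD D) R σ (f τ)) →
    (∀ (p : ℕ) [Fact p.Prime], ∃ (_iK : Algebra ℚ ℚ_[p]),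
      ∀ ι : Qb →ₐ[ℚ] AlgebraicClosure ℚ_[p],
      ∃ P : Fin g → Pt (EQ (VD D)) (AlgebraicClosure ℚ_[p]), ∀ (τ : Gal ℚ_[p]) (σ : Gal ℚ),
        (∀ x, τ (ι x) = ι (σ x)) → R σ = 1 →
        ∀ i, act (EQ (VD D)) ι (f σ i) =
          act (EQ (VD D)) (τ.toAlgHom.restrictScalars ℚ) (P i) - P i) →
    (∃ (_iK : Algebra ℚ ℝ), ∀ ι : Qb →ₐ[ℚ] AlgebraicClosure ℝ,
      ∃ P : Fin g → Pt (EQ (VD D)) (AlgebraicClosure ℝ), ∀ (τ : Gal ℝ) (σ : Gal ℚ),
        (∀ x, τ (ι x) = ι (σ x)) → R σ = 1 →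
        ∀ i, act (EQ (VD D)) ι (f σ i) =
          act (EQ (VD D)) (τ.toAlgHom.restrictScalars ℚ) (P i) - P i) →
    ∀ (k : ℕ) (P : PP g (VD D)), (∀ σ, 2 ^ k • f σ = aA (VD D) R σ P - P) →
    ∃ T : PP g (VD D), ∀ σ, f σ = aA (VD D) R σ T - T := by
  classical
  let iK : Algebra ℚ K := DivisionRing.toRatAlgebra
  obtain ⟨e, he⟩ : ∃ e : AlgebraicClosure K ≃+* Qb, ∀ x : K, e (algebraMap K _ x) = e₀ x := by
    let i1 : Algebra K Qb := e₀.toAlgebra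
    have i2 : IsScalarTower ℚ K Qb :=
      IsScalarTower.of_algebraMap_eq (fun x => (rat_hom (e₀.comp (algebraMap ℚ K)) x).symm)
    have i3 : Algebra.IsAlgebraic K Qb := Algebra.IsAlgebraic.tower_top (K := ℚ) K
    have i4 : IsAlgClosure K Qb := ⟨inferInstance, inferInstance⟩
    exact ⟨(IsAlgClosure.equiv K (AlgebraicClosure K) Qb).toRingEquiv,
      fun x => (IsAlgClosure.equiv K (AlgebraicClosure K) Qb).commutes x⟩
  have hem : ∀ x : K, em e x = e₀ x := he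
  have hR : ∀ σ : Gal ℚ, Fx e σ → R σ = 1 := fun σ hσ => hR₀ σ (fun x => by
    rw [← he]
    exact hσ x)
  have hW : Sc (algebraMap ℚ K) 1 (EQ (VD D)) ((VD D).map (Int.castRingHom K)) := by
    refine ⟨one_ne_zero, ?_, ?_, ?_, ?_, ?_⟩ <;> simp
  have hd0 : D ≠ 0 := by
    rintro rfl
    exact absurd hD (by decide)
  have hT := vd_isT hd0 K
  have hTQ := vd_isT hd0 ℚ
  have hrel : Rel (13 * D) (128 * D ^ 2) e U := by
    intro σ hσ
    obtain ⟨γ, h1, h2⟩ := hU σ hσ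
    exact ⟨γ, fun x => by rw [hem, hem]; exact h1 x, rel_D hre hcl hodd hp2 hp7 hD h2⟩
  refine ⟨⟨(pts_rel e hW hR hTQ hT hrel hodd hinv).1, (pts_rel e hW hR hTQ hT hrel hodd hinv).2,
    (card_map e hR hodd U).1⟩, ?_⟩
  intro f hlc hc hp hr k P hP
  exact sha_rel e hW hR hTQ hT hrel hodd hinv (hs_of e hW hR hlc hc hp hr) k P hP

end main

end Pool.Agent.Helper891_XR
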