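import Pool.Agent.R431.T.Val

/-!
# The product of the central values over a family of characters, general conditions at the primes of
# the twist
-/

set_option autoImplicit false

open Finset NumberField IsCyclotomicExtension.Rat H300.HW Polynomial

namespace Pool.Agent.Helper891_XR

open Pool.Agent.Y682.XT (same_value)

section

variable {G : Type} [CommGroup G] [Fintype G] {ι : Type} [Fintype ι]

theorem unitJ (hodd : Odd (Fintype.card G)) (χ : ι → (G →* ℂˣ)) (hχ : ∀ i, χ i ≠ 1)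
    (hπ : ∀ a : ℕ, a.Coprime (Fintype.card G) → ∃ π : Equiv.Perm ι, ∀ i, χ (π i) = χ i ^ a)
    (w : (G →* ℂˣ) → G → ℤ)
    (hw : ∀ χ (a : ℕ), a.Coprime (Fintype.card G) → w (χ ^ a) = w χ)
    (h2 : ∀ (k : Type) [Field k] [CharP k 2] (i : ι) (ψ : G →* k), χ i ≠ 1 →
      (∀ g, ψ g = 1 ↔ χ i g = 1) → ∑ g, ψ g * (w (χ i) g : k) ≠ 0) :
    ∃ N : ℤ, Odd N ∧ ∏ i, ∑ g, ((χ i g : ℂˣ) : ℂ) * (w (χ i) g : ℂ) = N := by
  set m := Fintype.card G with hm
  have hpos : 0 < m := Fintype.card_pos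
  have hne : NeZero m := ⟨hpos.ne'⟩
  obtain ⟨ζ, hζ⟩ : ∃ ζ : ℂ, IsPrimitiveRoot ζ m := ⟨_, Complex.isPrimitiveRoot_exp _ hpos.ne'⟩
  have hex : ∀ (χ : G →* ℂˣ) (g : G), ∃ e : ℕ, ζ ^ e = ((χ g : ℂˣ) : ℂ) := by
    intro χ g
    have h3 : ((χ g : ℂˣ) : ℂ) ^ m = 1 := by
      rw [← Units.val_pow_eq_pow_val, ← map_pow, hm, pow_card_eq_one, map_one, Units.val_one]
    obtain ⟨i, _, hi⟩ := hζ.eq_pow_of_pow_eq_one h3
    exact ⟨i, hi⟩
  choose e he using hex
  set P : ℤ[X] := ∏ i, ∑ g, C (w (χ i) g) * X ^ (e (χ i) g) with hP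
  set F : ι → ℂ := fun i => ∑ g, ((χ i g : ℂˣ) : ℂ) * (w (χ i) g : ℂ) with hF
  have hev : ∀ a : ℕ, a.Coprime m → aeval (ζ ^ a) P = ∏ i, F i := by
    intro a ha
    obtain ⟨π, hπ'⟩ := hπ a ha
    rw [← Equiv.prod_comp π F, hP, map_prod]
    refine prod_congr rfl fun i _ => ?_
    rw [hF]
    show _ = ∑ g, ((χ (π i) g : ℂˣ) : ℂ) * (w (χ (π i)) g : ℂ)
    rw [hπ' i, hw _ a ha, map_sum]
    refine sum_congr rfl fun g _ => ?_
    rw [map_mul, map_pow, aeval_X, aeval_C, ← pow_mul, mul_comm a, pow_mul, he (χ i) g]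
    simp only [algebraMap_int_eq, eq_intCast, MonoidHom.pow_apply, Units.val_pow_eq_pow_val]
    ring
  have hev1 := hev 1 (Nat.coprime_one_left m)
  rw [pow_one] at hev1
  obtain ⟨N, hN1, hN2⟩ := same_value hpos hζ P (fun a ha => by rw [hev a ha, hev1])
  refine ⟨N, ?_, ?_⟩
  · have main : ∀ (k : Type) [Field k] [CharP k 2] (ω : k), (cyclotomic m k).IsRoot ω → Odd N := by
      intro k _ _ ω hω
      have hmk : ((m : ℕ) : k) ≠ 0 := by
        intro h
        rw [CharP.cast_eq_zero_iff k 2] at h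
        exact (Nat.not_even_iff_odd.2 hodd) (even_iff_two_dvd.2 h)
      have hmn : NeZero ((m : ℕ) : k) := ⟨hmk⟩
      have hωp : IsPrimitiveRoot ω m := (isRoot_cyclotomic_iff (n := m)).1 hω
      have hω0 : aeval ω (cyclotomic m ℤ) = 0 := by
        rw [aeval_def, eval₂_eq_eval_map, map_cyclotomic]
        exact hω
      have h3 := hN2 _ ω hω0
      have h4 : aeval ω P ≠ 0 := by
        rw [hP, map_prod]
        refine prod_ne_zero_iff.2 fun i _ => ?_
        have key : ∀ i j : ℕ, ζ ^ i = ζ ^ j → ω ^ i = ω ^ j := by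
          intro i j hij
          rw [(hζ.isOfFinOrder hpos.ne').pow_eq_pow_iff_modEq, ← hζ.eq_orderOf] at hij
          rw [(hωp.isOfFinOrder hpos.ne').pow_eq_pow_iff_modEq, ← hωp.eq_orderOf]
          exact hij
        set ψ : G →* k :=
          { toFun := fun g => ω ^ e (χ i) g
            map_one' := by
              show ω ^ e (χ i) 1 = 1
              rw [← pow_zero ω]
              apply key
              rw [he, map_one, Units.val_one, pow_zero]
            map_mul' := by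
              intro g h
              show ω ^ e (χ i) (g * h) = ω ^ e (χ i) g * ω ^ e (χ i) h
              rw [← pow_add]
              apply key
              rw [he, map_mul, Units.val_mul, pow_add, he, he] } with hψ
        have h5 := h2 _ i ψ (hχ i) (by
          intro g
          show ω ^ e (χ i) g = 1 ↔ _
          rw [hωp.pow_eq_one_iff_dvd, ← hζ.pow_eq_one_iff_dvd, he, Units.val_eq_one])
        intro h6
        apply h5
        rw [← h6, map_sum]
        refine sum_congr rfl fun g _ => ?_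
        rw [map_mul, map_pow, aeval_X, aeval_C]
        simp only [algebraMap_int_eq, eq_intCast]
        show ω ^ e (χ i) g * _ = _
        ring
      rw [← Int.not_even_iff_odd]
      intro h5
      apply h4
      rw [h3]
      exact (CharP.intCast_eq_zero_iff k 2 N).2 (even_iff_two_dvd.1 h5)
    have hk2 : CharP (AlgebraicClosure (ZMod 2)) 2 :=
      charP_of_injective_algebraMap (algebraMap (ZMod 2) (AlgebraicClosure (ZMod 2))).injective 2
    obtain ⟨ω, hω⟩ := IsAlgClosed.exists_root (cyclotomic m (AlgebraicClosure (ZMod 2)))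
      (by
        rw [degree_cyclotomic]
        have := Nat.totient_pos.2 hpos
        exact_mod_cast this.ne')
    exact main _ ω hω
  · rw [← hN1, hev1]

end

open scoped Classical

open Pool.Agent.W97.MT (ap E14 II)

open Pool.Agent.Y687 (Symb Symb2)

open Pool.Agent.Y682.XT Pool.Agent.Y682.XD Pool.Agent.Y682.XF Pool.Agent.R431.T

section

variable {q : ℕ} [NeZero q] {L : Type} [Field L] [NumberField L] [IsCyclotomicExtension {q} ℚ L]
  {K : IntermediateField ℚ L}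

/-- the twisted sum modulo two -/
theorem core3 (hH : S_HECKE) {s : ℚ → ℤ} {a : ℕ → ℤ} (hK : HypK s a q L K)
    {f d : ℕ} [NeZero f] [NeZero (f * d)] (hfq : f ∣ q) (hdsq : Squarefree d)
    (hd : ∀ p : ℕ, p.Prime → p ∣ d → ¬ p ∣ 14 * q)
    (ε : (ZMod (f * d))ˣ → ℤ) (hε : ∀ u, ε u = 1 ∨ ε u = -1) (τ : (ZMod (f * d))ˣ → ℤ) (c : ℤ)
    (hτ : ∀ u, (2 : ℤ) ∣ τ u - s (((u : ZMod (f * d)).val : ℚ) / ((f * d : ℕ) : ℚ)) - c)
    (k : Type) [Field k] [CharP k 2] (χ' : GG q L K →* ℂˣ) (ψ : GG q L K →* k)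
    (hχ' : χ' ≠ 1) (hdχ : ∀ p : ℕ, p.Prime → p ∣ d → ∀ t : (ZMod q)ˣ, (t : ZMod q) = (p : ZMod q) →
      χ' (mkG q L K t) ≠ 1) (hker : ∀ g, ψ g = 1 ↔ χ' g = 1) (hcc : (cf q L K χ').conductor = f) :
    ∑ u ∈ PU (f * d), ψ (mkG q L K (sect hfq (ZMod.unitsMap (dvd_mul_right f d) u))) *
      ((ε u * τ u : ℤ) : k) ≠ 0 := by
  have hfG : Fintype (GG q L K) := Fintype.ofFinite _
  obtain ⟨R, hR, hSg⟩ := hK.hR
  have hcne : cf q L K χ' ≠ 1 := fun h => hχ' (cf_inj (h.trans cf_one.symm))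
  have hf1 : 1 < f := by
    have h2 : f ≠ 1 := fun h =>
      hcne (((cf q L K χ').eq_one_iff_conductor_eq_one).2 (hcc.trans h))
    have := NeZero.ne f
    omega
  have hfo : Odd f := Odd.of_dvd_nat hK.hq hfq
  have hf14 : f.Coprime 14 := Nat.Coprime.coprime_dvd_left hfq hK.hco
  -- the character at the level `f`
  subst hcc
  have hval : ∀ c : (ZMod q)ˣ, ((χ' (mkG q L K c) : ℂˣ) : ℂ) =
      (cf q L K χ').primitiveCharacter ((ZMod.unitsMap hfq c :
        (ZMod (cf q L K χ').conductor)ˣ) : ZMod (cf q L K χ').conductor) := by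
    intro c
    rw [← cf_apply]
    exact prim_unit _ c
  have hkf : ∀ c : (ZMod q)ˣ, ZMod.unitsMap hfq c = 1 → ψ (mkG q L K c) = 1 := by
    intro c hc
    rw [hker]
    apply Units.ext
    rw [hval, hc, Units.val_one, map_one, Units.val_one]
  obtain ⟨ψf, hψf, hψf'⟩ := exists_psif hfq ψ hkf
  have hneg : ∀ x : (ZMod q)ˣ, mkG q L K (-x) = mkG q L K x := by
    intro x
    rw [← neg_one_mul, map_mul, mkG_one.2 hK.hre, one_mul]
  have hcomp : ∀ c, ψf (ZMod.unitsMap hfq c) = ψ (mkG q L K c) := fun c =>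
    (DFunLike.congr_fun hψf c).symm
  have hev : ∀ x, ψf (-x) = ψf x := by
    intro x
    obtain ⟨c, rfl⟩ := ZMod.unitsMap_surjective hfq x
    rw [← unitsMap_neg, hcomp, hcomp, hneg]
  have hψne : ψ ≠ 1 := by
    intro h
    apply hχ'
    refine MonoidHom.ext fun g => ?_
    exact (hker g).1 (by rw [h]; rfl)
  -- the sum at the level `f`
  have hco2 : Nat.Coprime 2 q := by
    rw [Nat.coprime_two_left]; exact hK.hq
  have hco7 : Nat.Coprime 7 q := (Nat.Coprime.coprime_dvd_right (by norm_num) hK.hco).symm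
  have hbase : NZ s ψf (cf q L K χ').conductor := by
    intro _ h
    have h5 := wf_ne' hK.H hK.hq hK.h1 hK.hco hK.hre hR hSg
      (t2 := ZMod.unitOfCoprime 2 hco2) (t7 := ZMod.unitOfCoprime 7 hco7)
      (by rw [ZMod.coe_unitOfCoprime]; norm_num) (by rw [ZMod.coe_unitOfCoprime]; norm_num)
      (hK.hg2 _ (by rw [ZMod.coe_unitOfCoprime]; norm_num))
      (hK.hg7 _ (by rw [ZMod.coe_unitOfCoprime]; norm_num)) χ' hχ' ψ hker hfq hf1
      (hK.hs _ (cf_mem χ') hcne) (cf q L K χ').primitiveCharacter hval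
      (cf q L K χ').primitiveCharacter_isPrimitive
    rw [sum_wf] at h5
    intro h6
    apply h5
    rw [← h6]
    refine sum_congr rfl fun u _ => ?_
    rw [← hψf']
    congr 2
    apply Units.ext
    rw [ZMod.unitsMap_val]
    exact (ZMod.cast_id _ _).symm
  have hprod := NZ_prod hH hK.H.toSymb hf1 hfo hev hK.ev hbase d.primeFactors (by
    intro p hp
    have hpp := Nat.prime_of_mem_primeFactors hp
    have h5 := hd p hpp (Nat.dvd_of_mem_primeFactors hp)
    have h6 := hdχ p hpp (Nat.dvd_of_mem_primeFactors hp)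
    refine ⟨hpp, fun h7 => h5 (h7.trans (mul_dvd_mul_left 14 hfq)), fun t ht h8 => ?_⟩
    have hpc : p.Coprime q := by
      rw [Nat.Prime.coprime_iff_not_dvd hpp]
      exact fun h9 => h5 (dvd_mul_of_dvd_right h9 _)
    have h9 := h6 (ZMod.unitOfCoprime p hpc) (ZMod.coe_unitOfCoprime p hpc)
    have h10 : ZMod.unitsMap hfq (ZMod.unitOfCoprime p hpc) = t := by
      apply Units.ext
      rw [ZMod.unitsMap_val, ZMod.coe_unitOfCoprime, ht, ZMod.cast_natCast hfq]
    apply h9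
    rw [← hker, ← hcomp, h10, h8])
  rw [Nat.prod_primeFactors_of_squarefree hdsq] at hprod
  have h5 := hprod inferInstance (dvd_mul_right _ d)
  -- the sum of the character
  have hdo : Odd d := by
    rw [← Nat.prod_primeFactors_of_squarefree hdsq]
    refine Finset.prod_induction _ Odd (fun _ _ => Odd.mul) odd_one fun r hr => ?_
    have hrp := Nat.prime_of_mem_primeFactors hr
    refine hrp.odd_of_ne_two ?_
    rintro rfl
    exact (hd 2 hrp (Nat.dvd_of_mem_primeFactors hr)) (dvd_mul_of_dvd_left (by norm_num) _)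
  have hMo : Odd ((cf q L K χ').conductor * d) := hfo.mul hdo
  have hM1 : 1 < (cf q L K χ').conductor * d :=
    lt_of_lt_of_le hf1 (Nat.le_mul_of_pos_right _ hdo.pos)
  have hψs : ∑ u ∈ PU ((cf q L K χ').conductor * d),
      (ψf.comp (ZMod.unitsMap (dvd_mul_right (cf q L K χ').conductor d))) u = 0 := by
    obtain ⟨g, hg⟩ : ∃ g, ψ g ≠ 1 := by
      by_contra hcon
      push Not at hcon
      exact hψne (MonoidHom.ext hcon)
    obtain ⟨c, rfl⟩ := mkG_surj g
    obtain ⟨x, hx⟩ := ZMod.unitsMap_surjective (dvd_mul_right (cf q L K χ').conductor d)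
      (ZMod.unitsMap hfq c)
    refine psi_sum hMo hM1 (a := x) ?_ ?_
    · intro y
      rw [MonoidHom.comp_apply, MonoidHom.comp_apply, unitsMap_neg, hev]
    · rw [MonoidHom.comp_apply, hx, hcomp]
      exact hg
  intro h6
  apply h5
  have h7 : ∀ u : (ZMod ((cf q L K χ').conductor * d))ˣ, ψ (mkG q L K (sect hfq (ZMod.unitsMap (dvd_mul_right (cf q L K χ').conductor d) u))) * ((ε u * τ u : ℤ) : k) =
      ψf (ZMod.unitsMap (dvd_mul_right _ d) u) *
        ((s (((u : ZMod ((cf q L K χ').conductor * d)).val : ℚ) /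
          (((cf q L K χ').conductor * d : ℕ) : ℚ)) : ℤ) : k) +
      (ψf.comp (ZMod.unitsMap (dvd_mul_right (cf q L K χ').conductor d))) u * (c : k) := by
    intro u
    have h8 : ψ (mkG q L K (sect hfq (ZMod.unitsMap (dvd_mul_right (cf q L K χ').conductor d) u))) = ψf (ZMod.unitsMap (dvd_mul_right _ d) u) := (hψf' _).symm
    rw [h8, MonoidHom.comp_apply, ← mul_add]
    congr 1
    obtain ⟨e, he⟩ := hτ u
    have h9 : τ u = s (((u : ZMod ((cf q L K χ').conductor * d)).val : ℚ) /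
          (((cf q L K χ').conductor * d : ℕ) : ℚ)) + c + 2 * e := by linear_combination he
    have h10 : (2 : k) = 0 := CharTwo.two_eq_zero
    rcases hε u with h11 | h11
    · rw [h11, one_mul, h9]
      push_cast
      linear_combination (e : k) * h10
    · rw [h11, h9]
      push_cast
      generalize ((s (((u : ZMod ((cf q L K χ').conductor * d)).val : ℚ) /
          (((cf q L K χ').conductor : ℚ) * (d : ℚ))) : ℤ) : k) = X
      linear_combination (-(e : k) - X - c) * h10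
  rw [sum_congr rfl fun u _ => h7 u, sum_add_distrib, ← sum_mul, hψs, zero_mul, add_zero] at h6
  exact h6

end

section

variable {q : ℕ} [NeZero q] {L : Type} [Field L] [NumberField L] [IsCyclotomicExtension {q} ℚ L]
  {K : IntermediateField ℚ L}

/-- **the product of the twisted sums is an odd integer** -/
theorem prod_J (hH : S_HECKE) {s : ℚ → ℤ} {a : ℕ → ℤ} (hK : HypK s a q L K)
    {d : ℕ} (hd0 : d ≠ 0) (hdsq : Squarefree d)
    (hd : ∀ p : ℕ, p.Prime → p ∣ d → ¬ p ∣ 14 * q)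
    (ε : (ZMod d)ˣ → ℤ) (hε : ∀ u, ε u = 1 ∨ ε u = -1) (τ : ℚ → ℤ) (c : ℤ)
    (hτ : ∀ r : ℚ, r.den.Coprime 14 → (2 : ℤ) ∣ τ r - s r - c)
    [Fintype (GG q L K)] {ι : Type} [Fintype ι] (χ : ι → (GG q L K →* ℂˣ)) (hχ : ∀ i, χ i ≠ 1)
    (hdχ : ∀ i, ∀ p : ℕ, p.Prime → p ∣ d → ∀ t : (ZMod q)ˣ, (t : ZMod q) = (p : ZMod q) →
      χ i (mkG q L K t) ≠ 1)
    (hπ : ∀ a : ℕ, a.Coprime (Fintype.card (GG q L K)) →
      ∃ π : Equiv.Perm ι, ∀ i, χ (π i) = χ i ^ a) :
    ∃ N : ℤ, Odd N ∧ ∏ i,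
      (haveI : NeZero ((cf q L K (χ i)).conductor * d) :=
        ⟨mul_ne_zero (cf q L K (χ i)).conductor_ne_zero hd0⟩
      ∑ g, ((χ i g : ℂˣ) : ℂ) * (wd L K (cf q L K (χ i)).conductor_dvd_level ε τ g : ℂ)) = N := by
  refine unitJ (card_odd hK.hodd) χ hχ hπ (fun χ =>
    haveI : NeZero ((cf q L K χ).conductor * d) := ⟨mul_ne_zero (cf q L K χ).conductor_ne_zero hd0⟩
    wd L K (cf q L K χ).conductor_dvd_level ε τ) ?_ ?_
  · intro χ a ha
    have : NeZero ((cf q L K χ).conductor * d) := ⟨mul_ne_zero (cf q L K χ).conductor_ne_zero hd0⟩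
    have : NeZero ((cf q L K (χ ^ a)).conductor * d) :=
      ⟨mul_ne_zero (cf q L K (χ ^ a)).conductor_ne_zero hd0⟩
    apply wd_congr
    exact cond_pow χ ha
  · intro k _ _ i ψ hχ hker
    have hdi := hdχ i
    generalize χ i = χ at hχ hker hdi ⊢
    have : NeZero (cf q L K χ).conductor := ⟨(cf q L K χ).conductor_ne_zero⟩
    have : NeZero ((cf q L K χ).conductor * d) := ⟨mul_ne_zero (cf q L K χ).conductor_ne_zero hd0⟩
    show ∑ g, ψ g * (wd L K (cf q L K χ).conductor_dvd_level ε τ g : k) ≠ 0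
    rw [sum_wd]
    refine core3 hH hK (cf q L K χ).conductor_dvd_level hdsq hd
      (fun u => ε (ZMod.unitsMap (dvd_mul_left d (cf q L K χ).conductor) u)) (fun u => hε _)
      (fun u => τ (((u : ZMod ((cf q L K χ).conductor * d)).val : ℚ) /
        (((cf q L K χ).conductor * d : ℕ) : ℚ))) c ?_ k χ ψ hχ hdi hker rfl
    intro u
    apply hτ
    have hco : ((cf q L K χ).conductor * d).Coprime 14 := by
      refine Nat.Coprime.mul_left (Nat.Coprime.coprime_dvd_left
        (cf q L K χ).conductor_dvd_level hK.hco) ?_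
      refine Nat.coprime_of_dvd ?_
      intro p hp hpd hp14
      exact (hd p hp hpd) (dvd_mul_of_dvd_left hp14 _)
    refine Nat.Coprime.coprime_dvd_left ?_ hco
    have h4 := Rat.den_dvd ((u : ZMod ((cf q L K χ).conductor * d)).val : ℤ)
      (((cf q L K χ).conductor * d : ℕ) : ℤ)
    rw [Rat.divInt_eq_div, Int.cast_natCast, Int.cast_natCast] at h4
    exact Int.natCast_dvd_natCast.1 h4

end

section

variable {q d : ℕ} [NeZero q] [NeZero d] [NeZero (q * d)] {L : Type} [Field L] [NumberField L]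
  [IsCyclotomicExtension {q} ℚ L] {K : IntermediateField ℚ L}

/-- **the product of the central values of a family of twists** -/
theorem val_J (hH : S_HECKE) (hPR : S_PRIM) {s t : ℚ → ℤ} {Op Om : ℝ} (hSy : Sy s t Op Om)
    (hK : HypK s (fun l => ap E14 l) q L K) (hqp : IsPrimePow q) {D : ℤ}
    (hD : D.natAbs = d) (hdsq : Squarefree d)
    (hd : ∀ p : ℕ, p.Prime → p ∣ d → ¬ p ∣ 14 * q)
    {δ : DirichletCharacter ℂ d} (hδp : δ.IsPrimitive)
    (hδ1 : δ (-1) = (if 0 < D then 1 else -1))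
    (hδ : ∀ u : (ZMod d)ˣ, δ (u : ZMod d) = 1 ∨ δ (u : ZMod d) = -1)
    {G : DirichletCharacter ℂ (q * d) → ℂ → ℂ}
    (hG : ∀ χ : DirichletCharacter ℂ (q * d),
      haveI : NeZero χ.conductor := ⟨χ.conductor_ne_zero⟩
      gaussSum (χ.primitiveCharacter)⁻¹ (ZMod.stdAddChar (N := χ.conductor)) * G χ 1 =
        ∑ u : (ZMod χ.conductor)ˣ, (χ.primitiveCharacter)⁻¹ (u : ZMod χ.conductor) *
          II (((u : ZMod χ.conductor).val : ℚ) / χ.conductor))
    [Fintype (GG q L K)] {ι : Type} [Fintype ι] (ψ : ι → (GG q L K →* ℂˣ)) (hψ : ∀ i, ψ i ≠ 1)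
    (hdψ : ∀ i, ∀ p : ℕ, p.Prime → p ∣ d → ∀ t : (ZMod q)ˣ, (t : ZMod q) = (p : ZMod q) →
      ψ i (mkG q L K t) ≠ 1)
    (hπ : ∀ a : ℕ, a.Coprime (Fintype.card (GG q L K)) →
      ∃ π : Equiv.Perm ι, ∀ i, ψ (π i) = ψ i ^ a) :
    ∃ ρ : ℚ, ρ ≠ 0 ∧ padicValRat 2 ρ = 0 ∧
      ∏ i, G (XX δ (cf q L K (ψ i))) 1 =
        (ρ : ℂ) * (((2 * (if 0 < D then Op else Om) / √|(D : ℝ)|) ^ Fintype.card ι : ℝ) : ℂ) := by
  have hd0 : d ≠ 0 := NeZero.ne d
  have hδi : δ⁻¹ = δ := quad_inv hδ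
  have hqd : q.Coprime d := by
    refine Nat.coprime_of_dvd ?_
    intro p hp hpq hpd
    exact (hd p hp hpd) (dvd_mul_of_dvd_right hpq _)
  have hd14 : d.Coprime 14 := by
    refine Nat.coprime_of_dvd ?_
    intro p hp hpd hp14
    exact (hd p hp hpd) (dvd_mul_of_dvd_left hp14 _)
  have hdo : Odd d := by
    have : d.Coprime 2 := Nat.Coprime.coprime_dvd_right (by norm_num) hd14
    exact Nat.coprime_two_right.1 this
  -- the inverse characters
  have hmo : Odd (Fintype.card (GG q L K)) := card_odd hK.hodd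
  have hpow : ∀ χ : GG q L K →* ℂˣ, χ ^ Fintype.card (GG q L K) = 1 := fun χ =>
    MonoidHom.ext fun g => by rw [MonoidHom.pow_apply, ← map_pow, pow_card_eq_one, map_one]; rfl
  obtain ⟨π, hπi⟩ : ∃ π : Equiv.Perm ι, ∀ i, ψ (π i) = (ψ i)⁻¹ := by
    have hpos : 0 < Fintype.card (GG q L K) := Fintype.card_pos
    obtain ⟨π, h1⟩ := hπ (Fintype.card (GG q L K) - 1) (by
      have h2 : Nat.Coprime (Fintype.card (GG q L K) - 1) (Fintype.card (GG q L K) - 1 + 1) := by
        simp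
      rwa [Nat.sub_add_cancel hpos] at h2)
    refine ⟨π, fun i => ?_⟩
    rw [h1 i]
    refine MonoidHom.ext fun g => ?_
    rw [MonoidHom.pow_apply, MonoidHom.inv_apply]
    refine eq_inv_of_mul_eq_one_left ?_
    rw [← pow_succ, Nat.sub_add_cancel hpos, ← map_pow, pow_card_eq_one, map_one]
  have hne2 : ∀ i, (ψ i)⁻¹ ≠ ψ i := by
    intro i h
    apply hψ i
    refine MonoidHom.ext fun g => ?_
    have h1 := DFunLike.congr_fun h g
    rw [MonoidHom.inv_apply] at h1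
    have h2 : (ψ i g) ^ 2 = 1 := by
      rw [pow_two]
      nth_rewrite 1 [← h1]
      exact inv_mul_cancel _
    have h3 : (ψ i g) ^ Fintype.card (GG q L K) = 1 := by
      rw [← map_pow, pow_card_eq_one, map_one]
    obtain ⟨k, hk⟩ := hmo
    rw [hk, pow_succ, pow_mul, h2, one_pow, one_mul] at h3
    rw [h3, MonoidHom.one_apply]
  have hev : Even (Fintype.card ι) := by
    have h1 := even_inv ψ (fun χ => χ⁻¹) (fun χ => inv_inv χ) hne2 π hπi (fun _ => 1) (fun _ => rfl)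
    rw [sum_const, card_univ, smul_eq_mul, mul_one] at h1
    exact h1
  obtain ⟨r, hr⟩ : ∃ r : ℕ, Odd r ∧ ∏ i, (cf q L K (ψ i)).conductor = r ^ 2 := by
    obtain ⟨l, k, hl, hk, hq⟩ := hqp
    have hl' := hl.nat_prime
    have h1 : ∀ χ : GG q L K →* ℂˣ,
        (cf q L K χ).conductor = l ^ ((cf q L K χ).conductor.factorization l) := by
      intro χ
      have h2 := (cf q L K χ).conductor_dvd_level.trans (dvd_of_eq hq.symm)
      obtain ⟨j, _, hj⟩ := (Nat.dvd_prime_pow hl').1 h2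
      rw [hj, hl'.factorization_pow, Finsupp.single_eq_same]
    obtain ⟨j, hj⟩ := even_inv ψ (fun χ => χ⁻¹) (fun χ => inv_inv χ) hne2 π hπi
      (fun χ => (cf q L K χ).conductor.factorization l) (fun χ => by
        show (cf q L K χ⁻¹).conductor.factorization l = _
        rw [cf_inv, DirichletCharacter.conductor_inv])
    refine ⟨l ^ j, ?_, ?_⟩
    · refine Odd.pow ?_
      exact Odd.of_dvd_nat hK.hq (by rw [← hq]; exact dvd_pow_self l hk.ne')
    · rw [prod_congr rfl fun i _ => h1 (ψ i), prod_pow_eq_pow_sum, hj, ← pow_mul]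
      congr 1
      ring
  obtain ⟨hro, hrF⟩ := hr
  -- the sign character as an integral function
  set ε : (ZMod d)ˣ → ℤ := fun u => if δ (u : ZMod d) = 1 then 1 else -1 with hεdef
  have hε1 : ∀ u, ε u = 1 ∨ ε u = -1 := by
    intro u
    by_cases h : δ (u : ZMod d) = 1
    · exact Or.inl (if_pos h)
    · exact Or.inr (if_neg h)
  have hε2 : ∀ u, (ε u : ℂ) = δ (u : ZMod d) := by
    intro u
    by_cases h : δ (u : ZMod d) = 1
    · have : ε u = 1 := if_pos h
      rw [this, h, Int.cast_one]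
    · have : ε u = -1 := if_neg h
      rw [this]
      rcases hδ u with h1 | h1
      · exact absurd h1 h
      · rw [h1]; push_cast; rfl
  -- the symbol
  obtain ⟨τ, c, C, C', κ, hτ, hC, hκ, hCC, hval⟩ : ∃ (τ : ℚ → ℤ) (c : ℤ) (C : ℂ) (C' : ℝ) (κ : ℤ),
      (∀ r : ℚ, r.den.Coprime 14 → (2 : ℤ) ∣ τ r - s r - c) ∧
      C' = 2 * (if 0 < D then Op else Om) / κ ∧ Odd κ ∧
      (∃ e : ℚ, (e = 1 ∨ e = -1) ∧ C ^ Fintype.card ι =
        (e : ℂ) * ((C' ^ Fintype.card ι : ℝ) : ℂ)) ∧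
      ∀ (F : ℕ) [NeZero F], Odd F → 1 < F → F.Coprime 14 → ∀ ρ : DirichletCharacter ℂ F,
        ρ (-1) = (if 0 < D then 1 else -1) →
        ∑ u : (ZMod F)ˣ, ρ (u : ZMod F) * II (((u : ZMod F).val : ℚ) / F) =
          C * ∑ u ∈ PU F, ρ (u : ZMod F) * ((τ (((u : ZMod F).val : ℚ) / F) : ℤ) : ℂ) := by
    by_cases hDp : 0 < D
    · refine ⟨s, 0, 2 * Op / 3, 2 * Op / 3, 3, fun r _ => by rw [sub_self, sub_zero]; exact dvd_zero _,
        by rw [if_pos hDp]; push_cast; rfl, by decide, ⟨1, Or.inl rfl, ?_⟩, ?_⟩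
      · push_cast
        rw [one_mul]
      · intro F _ hFo hF1 _ ρ hρ
        rw [if_pos hDp] at hρ
        exact II_sum hSy.re hFo hF1 hρ
    · refine ⟨t, 1, 2 * Om * Complex.I, 2 * Om, 1, fun r hr => (hSy.im r hr).2,
        by rw [if_neg hDp]; push_cast; rw [div_one], by decide, ?_, ?_⟩
      · obtain ⟨j, hj⟩ := hev
        refine ⟨(-1) ^ j, neg_one_pow_eq_or ℚ j, ?_⟩
        rw [mul_pow, hj]
        have h1 : Complex.I ^ (j + j) = (-1) ^ j := by
          rw [← two_mul, pow_mul, Complex.I_sq]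
        rw [h1]
        push_cast
        ring
      · intro F _ hFo hF1 hF14 ρ hρ
        rw [if_neg hDp] at hρ
        refine II_sum_odd (t := t) (fun u => (hSy.im _ ?_).1) hFo hF1 hρ
        refine Nat.Coprime.coprime_dvd_left ?_ hF14
        have h4 := Rat.den_dvd ((u : ZMod F).val : ℤ) (F : ℤ)
        rw [Rat.divInt_eq_div, Int.cast_natCast, Int.cast_natCast] at h4
        exact Int.natCast_dvd_natCast.1 h4
  obtain ⟨N, hNo, hprod⟩ := prod_J hH hK hd0 hdsq hd ε hε1 τ c hτ ψ hψ hdψ hπ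
  -- the characters
  have hcond : ∀ ψ : GG q L K →* ℂˣ, (XX δ (cf q L K ψ)).conductor =
      (cf q L K ψ).conductor * d := fun ψ => (hPR q d hqd (cf q L K ψ) δ hδp).1
  have hpar : ∀ ψ : GG q L K →* ℂˣ, XX δ (cf q L K ψ) (-1) = (if 0 < D then 1 else -1) := by
    intro ψ
    rw [XX_neg, even_cf hK.hre ψ, one_mul, hδ1]
  have hσ : ((if 0 < D then 1 else -1 : ℂ) = 1 ∨ (if 0 < D then 1 else -1 : ℂ) = -1) := by
    by_cases h : 0 < D
    · left; exact if_pos h
    · right; exact if_neg h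
  have hother : ∀ ψ : GG q L K →* ℂˣ, ψ ≠ 1 →
      gsi (XX δ (cf q L K ψ)) * G (XX δ (cf q L K ψ)) 1 = C *
      (haveI : NeZero ((cf q L K ψ⁻¹).conductor * d) :=
        ⟨mul_ne_zero (cf q L K ψ⁻¹).conductor_ne_zero hd0⟩
      ∑ g, (((ψ⁻¹) g : ℂˣ) : ℂ) * (wd L K (cf q L K ψ⁻¹).conductor_dvd_level ε τ g : ℂ)) := by
    intro ψ hψ
    have : NeZero ((cf q L K ψ⁻¹).conductor * d) :=
      ⟨mul_ne_zero (cf q L K ψ⁻¹).conductor_ne_zero hd0⟩
    have : NeZero ((cf q L K ψ).conductor * d) :=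
      ⟨mul_ne_zero (cf q L K ψ).conductor_ne_zero hd0⟩
    have : NeZero (XX δ (cf q L K ψ)).conductor := ⟨(XX δ (cf q L K ψ)).conductor_ne_zero⟩
    have hne : cf q L K ψ ≠ 1 := fun h => hψ (cf_inj (h.trans cf_one.symm))
    have hf1 : 1 < (XX δ (cf q L K ψ)).conductor := by
      rw [hcond]
      have h2 : (cf q L K ψ).conductor ≠ 1 := fun h =>
        hne (((cf q L K ψ).eq_one_iff_conductor_eq_one).2 h)
      have h3 := (cf q L K ψ).conductor_ne_zero
      exact lt_of_lt_of_le (by omega : 1 < (cf q L K ψ).conductor)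
        (Nat.le_mul_of_pos_right _ (Nat.pos_of_ne_zero hd0))
    have hfo : Odd (XX δ (cf q L K ψ)).conductor :=
      Odd.of_dvd_nat (hK.hq.mul hdo) (XX δ (cf q L K ψ)).conductor_dvd_level
    have hf14 : (XX δ (cf q L K ψ)).conductor.Coprime 14 :=
      Nat.Coprime.coprime_dvd_left (XX δ (cf q L K ψ)).conductor_dvd_level
        (Nat.Coprime.mul_left hK.hco hd14)
    have h2 := hG (XX δ (cf q L K ψ))
    rw [hval (XX δ (cf q L K ψ)).conductor hfo hf1 hf14
      ((XX δ (cf q L K ψ)).primitiveCharacter)⁻¹ (by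
        rw [MulChar.inv_apply_eq_inv', prim_par, hpar]
        rcases hσ with h | h
        · rw [h, inv_one]
        · rw [h]; norm_num)] at h2
    rw [sum_X hε2 hδi ψ τ (cf q L K ψ).conductor_dvd_level rfl (XX δ (cf q L K ψ)).conductor
      (hcond ψ) (XX δ (cf q L K ψ)).conductor_dvd_level (XX δ (cf q L K ψ)).primitiveCharacter
      (XX δ (cf q L K ψ)).changeLevel_primitiveCharacter] at h2
    have h3 : wd L K (cf q L K ψ⁻¹).conductor_dvd_level ε τ =
        wd L K (cf q L K ψ).conductor_dvd_level ε τ := by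
      apply wd_congr
      rw [cf_inv, DirichletCharacter.conductor_inv]
    show _ = C * ∑ g, (((ψ⁻¹) g : ℂˣ) : ℂ) *
      (wd L K (cf q L K ψ⁻¹).conductor_dvd_level ε τ g : ℂ)
    rw [h3]
    exact h2
  set n := Fintype.card ι with hn
  have hT : (∏ i, gsi (XX δ (cf q L K (ψ i)))) *
      ∏ i, G (XX δ (cf q L K (ψ i))) 1 = C ^ n * N := by
    rw [← prod_mul_distrib, prod_congr rfl fun i _ => hother (ψ i) (hψ i), prod_mul_distrib,
      prod_const, card_univ]
    congr 1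
    let Fw : (GG q L K →* ℂˣ) → ℂ := fun χ =>
      haveI : NeZero ((cf q L K χ).conductor * d) :=
        ⟨mul_ne_zero (cf q L K χ).conductor_ne_zero hd0⟩
      ∑ g, ((χ g : ℂˣ) : ℂ) * (wd L K (cf q L K χ).conductor_dvd_level ε τ g : ℂ)
    have e1 : ∏ i, Fw (ψ (π i)) = N := by
      rw [Equiv.prod_comp π (fun i => Fw (ψ i))]
      exact hprod
    rw [← e1]
    refine prod_congr rfl fun i _ => ?_
    rw [hπi i]
  have hr0 : r ≠ 0 := by
    rintro rfl
    exact absurd hro (by decide)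
  -- the square of the product of the Gauss sums
  have hT2 : (∏ i, gsi (XX δ (cf q L K (ψ i)))) ^ 2 = (r : ℂ) ^ 2 * (d : ℂ) ^ n := by
    have h1 : ∏ i, gsi (XX δ (cf q L K (ψ i))) =
        ∏ i, gs (XX δ (cf q L K (ψ i))) := by
      rw [← Equiv.prod_comp π (fun i => gs (XX δ (cf q L K (ψ i))))]
      refine prod_congr rfl fun i _ => ?_
      rw [gsi_eq, XX_inv hδi, hπi i, cf_inv]
    have h2 : (∏ i, gsi (XX δ (cf q L K (ψ i)))) ^ 2 =
        ∏ i, (gs (XX δ (cf q L K (ψ i))) * gsi (XX δ (cf q L K (ψ i)))) := by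
      rw [prod_mul_distrib, ← h1, pow_two]
    rw [h2, prod_congr rfl fun i _ => gs_mulS hσ (hpar (ψ i)), prod_mul_distrib, prod_const,
      card_univ, ← hn]
    have h3 : (if 0 < D then 1 else -1 : ℂ) ^ n = 1 := by
      rcases hσ with h | h
      · rw [h, one_pow]
      · rw [h, hev.neg_one_pow]
    rw [h3, one_mul]
    have h4 : ∀ i, (((XX δ (cf q L K (ψ i))).conductor : ℕ) : ℂ) =
        ((cf q L K (ψ i)).conductor : ℂ) * (d : ℂ) := by
      intro i
      rw [hcond]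
      push_cast
      rfl
    rw [prod_congr rfl fun i _ => h4 i, prod_mul_distrib, prod_const, card_univ, ← hn]
    congr 1
    have h5 := congrArg (fun x : ℕ => (x : ℂ)) hrF
    push_cast at h5
    exact h5
  set T : ℂ := ∏ i, gsi (XX δ (cf q L K (ψ i))) with hTdef
  set PG : ℂ := ∏ i, G (XX δ (cf q L K (ψ i))) 1 with hPG
  have hsd : ((Real.sqrt d : ℝ) : ℂ) ^ 2 = (d : ℂ) := by
    rw [← Complex.ofReal_pow, Real.sq_sqrt (Nat.cast_nonneg _)]
    push_cast
    rfl
  have hsd0 : Real.sqrt d ≠ 0 := by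
    rw [Real.sqrt_ne_zero (Nat.cast_nonneg _)]
    exact_mod_cast hd0
  set Z : ℂ := (r : ℂ) * ((Real.sqrt d : ℝ) : ℂ) ^ n with hZ
  have hZ0 : Z ≠ 0 := mul_ne_zero (by exact_mod_cast hr0) (pow_ne_zero _ (by exact_mod_cast hsd0))
  obtain ⟨e1, he1, hTε⟩ : ∃ e : ℚ, (e = 1 ∨ e = -1) ∧ T = (e : ℂ) * Z := by
    have h2 : T ^ 2 = Z ^ 2 := by
      rw [hT2, hZ, mul_pow, ← pow_mul, mul_comm n 2, pow_mul, hsd]
    rcases sq_eq_sq_iff_eq_or_eq_neg.1 h2 with h3 | h3
    · exact ⟨1, Or.inl rfl, by push_cast; rw [one_mul]; exact h3⟩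
    · exact ⟨-1, Or.inr rfl, by push_cast; rw [neg_one_mul]; exact h3⟩
  obtain ⟨e2, he2, hCe⟩ := hCC
  have hκ0 : (κ : ℂ) ≠ 0 := by
    have : κ ≠ 0 := by
      intro h0; rw [h0] at hκ; exact absurd hκ (by decide)
    exact_mod_cast this
  have hκ0' : (κ : ℝ) ≠ 0 := by
    have : κ ≠ 0 := by
      intro h0; rw [h0] at hκ; exact absurd hκ (by decide)
    exact_mod_cast this
  have he1' : (e1 : ℂ) * e1 = 1 := by
    rcases he1 with rfl | rfl <;> norm_num
  have he12 : e1 * e2 = 1 ∨ e1 * e2 = -1 := by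
    rcases he1 with rfl | rfl <;> rcases he2 with rfl | rfl <;> norm_num
  have hB : Odd ((r : ℤ) * κ ^ n) := Odd.mul (by exact_mod_cast hro) hκ.pow
  obtain ⟨hp1, hp2⟩ := padic_odd hNo hB he12
  refine ⟨_, hp2, hp1, ?_⟩
  -- the computation
  have hDd : √|(D : ℝ)| = Real.sqrt d := by
    congr 1
    rw [← hD, Nat.cast_natAbs, Int.cast_abs]
  have h5 : PG * Z = (e1 : ℂ) * (e2 * ((C' ^ n : ℝ) : ℂ) * N) := by
    rw [hTε, hCe] at hT
    linear_combination (e1 : ℂ) * hT - Z * PG * he1'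
  have h6 : ((C' ^ n : ℝ) : ℂ) * (κ : ℂ) ^ n =
      (((2 * (if 0 < D then Op else Om) / √|(D : ℝ)|) ^ n : ℝ) : ℂ) *
        ((Real.sqrt d : ℝ) : ℂ) ^ n := by
    have h7 : C' ^ n * (κ : ℝ) ^ n = (2 * (if 0 < D then Op else Om) / √|(D : ℝ)|) ^ n *
        (Real.sqrt d) ^ n := by
      rw [← mul_pow, ← mul_pow, hC, hDd, div_mul_cancel₀ _ hκ0', div_mul_cancel₀ _ hsd0]
    have h8 := congrArg (fun x : ℝ => (x : ℂ)) h7
    push_cast at h8 ⊢
    exact h8
  set Om' : ℂ := (((2 * (if 0 < D then Op else Om) / √|(D : ℝ)|) ^ n : ℝ) : ℂ) with hOm'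
  have hsdn : ((Real.sqrt d : ℝ) : ℂ) ^ n ≠ 0 := pow_ne_zero _ (by exact_mod_cast hsd0)
  have hκn : (κ : ℂ) ^ n ≠ 0 := pow_ne_zero _ hκ0
  have key : PG * ((r : ℂ) * (κ : ℂ) ^ n) * ((Real.sqrt d : ℝ) : ℂ) ^ n =
      (e1 * e2) * N * Om' * ((Real.sqrt d : ℝ) : ℂ) ^ n := by
    rw [hZ] at h5
    linear_combination ((κ : ℂ) ^ n) * h5 + ((e1 : ℂ) * e2 * N) * h6
  have key2 := mul_right_cancel₀ hsdn key
  have hrc : (r : ℂ) ≠ 0 := by exact_mod_cast hr0
  have hIκ : (r : ℂ) * (κ : ℂ) ^ n ≠ 0 := mul_ne_zero hrc hκn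
  apply mul_right_cancel₀ hIκ
  rw [key2]
  push_cast
  field_simp

end

end Pool.Agent.Helper891_XR
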