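import Pool.Agent.R431.T.Lf
import Pool.Agent.Helper891_XR.Xe

/-!
# The `L`-function of `E_D ⊗ M`, general conditions at the primes of the twist
-/

set_option autoImplicit false

open Finset NumberField IsCyclotomicExtension.Rat H300.HW

namespace Pool.Agent.Helper891_XR

open scoped Classical

open Pool.Agent.W97.MT (ap E14 II)

open Pool.Agent.Y700 (WM)

open Pool.Agent.Y682.XT Pool.Agent.Y682.XD Pool.Agent.Y682.XF Pool.Agent.R431.T

section

variable {q : ℕ} [NeZero q] {L : Type} [Field L] [NumberField L] [IsCyclotomicExtension {q} ℚ L]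
  {K : IntermediateField ℚ L}

/-- the characters of the lattice -/
theorem exists_charsS {g : ℕ} (ρ : (ZMod q)ˣ →* GL (Fin g) ℤ)
    (hρ : ∀ u ∈ HH q L K, ρ u = 1)
    (S : Subgroup (ZMod q)ˣ) (hinv : ∀ x : Fin g → ℤ, (∀ u ∈ S,
      (ρ u : Matrix (Fin g) (Fin g) ℤ).mulVec x = x) → x = 0) :
    ∃ ψ : Fin g → (GG q L K →* ℂˣ), (∀ i, ∃ u ∈ S, ψ i (mkG q L K u) ≠ 1) ∧
      (∀ (x y : ℂ) (u : (ZMod q)ˣ),
        (1 - x • ((ρ u : Matrix (Fin g) (Fin g) ℤ).map (Int.cast : ℤ → ℂ)) +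
          y • ((ρ u : Matrix (Fin g) (Fin g) ℤ).map (Int.cast : ℤ → ℂ)) ^ 2).det =
            ∏ i, (1 - x * cf q L K (ψ i) (u : ZMod q) + y * cf q L K (ψ i) (u : ZMod q) ^ 2)) ∧
      ∀ [Fintype (GG q L K)] (a : ℕ), a.Coprime (Fintype.card (GG q L K)) →
        ∃ π : Equiv.Perm (Fin g), ∀ i, ψ (π i) = ψ i ^ a := by
  obtain ⟨χ, h1, h2, h3, h4⟩ := Pool.Agent.Y153.AREP.s_rep q g ρ
  -- the characters are those of the field
  have hY : ∀ i, χ i ∈ YY q L K := by
    have h5 := h3 (HH q L K)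
    have h6 : (⨅ u : HH q L K, LinearMap.ker
        (Matrix.toLin' ((ρ (u : (ZMod q)ˣ) : Matrix (Fin g) (Fin g) ℤ) - 1)) :
          Submodule ℤ (Fin g → ℤ)) = ⊤ := by
      rw [iInf_eq_top]
      intro u
      rw [hρ u.1 u.2, Units.val_one, sub_self, map_zero, LinearMap.ker_zero]
    rw [h6, finrank_top, Module.finrank_fin_fun] at h5
    have h7 : ∀ i : Fin g, ∀ u ∈ HH q L K, χ i (u : ZMod q) = 1 := by
      by_contra hcon
      push Not at hcon
      obtain ⟨i, u, hu, hne⟩ := hcon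
      have h8 : Nat.card {i : Fin g // ∀ u ∈ HH q L K, χ i (u : ZMod q) = 1} < Nat.card (Fin g) := by
        rw [Nat.card_eq_fintype_card, Nat.card_eq_fintype_card]
        exact Fintype.card_subtype_lt (x := i) (fun h => hne (h u hu))
      rw [Nat.card_eq_fintype_card (α := Fin g), Fintype.card_fin] at h8
      omega
    intro i
    rw [mem_YY]
    intro σ hσ
    refine h7 i _ ?_
    rw [mem_HH, MulEquiv.symm_apply_apply]
    exact hσ
  choose ψ hψ using fun i => cf_surj (hY i)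
  refine ⟨ψ, ?_, ?_, ?_⟩
  · intro i
    by_contra hcon
    push Not at hcon
    have h5 := h3 S
    have h6 : (⨅ u : S, LinearMap.ker
        (Matrix.toLin' ((ρ (u : (ZMod q)ˣ) : Matrix (Fin g) (Fin g) ℤ) - 1)) :
          Submodule ℤ (Fin g → ℤ)) = ⊥ := by
      rw [eq_bot_iff]
      intro x hx
      rw [Submodule.mem_bot]
      apply hinv
      intro u hu
      rw [Submodule.mem_iInf] at hx
      have h7 := hx ⟨u, hu⟩
      rw [LinearMap.mem_ker, Matrix.toLin'_apply, Matrix.sub_mulVec, Matrix.one_mulVec,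
        sub_eq_zero] at h7
      exact h7
    rw [h6, finrank_bot] at h5
    have h8 : IsEmpty {i : Fin g // ∀ u ∈ S, χ i (u : ZMod q) = 1} := by
      rcases Nat.card_eq_zero.1 h5.symm with h | h
      · exact h
      · exact absurd h (not_infinite_iff_finite.2 inferInstance)
    refine h8.false ⟨i, fun u hu => ?_⟩
    rw [← hψ i, cf_apply, hcon u hu, Units.val_one]
  · intro x y u
    rw [h1]
    exact prod_congr rfl fun i _ => by rw [hψ i]
  · intro _ a ha
    obtain ⟨π, hπ⟩ := h2 a (Fintype.card (GG q L K)) ha (by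
      intro u
      rw [← map_pow]
      apply hρ
      rw [← mkG_one, map_pow, pow_card_eq_one])
    refine ⟨π, fun i => ?_⟩
    apply cf_inj
    rw [cf_pow, hψ, hψ, hπ]

end

section

variable {q d : ℕ} [NeZero q] [NeZero d] [NeZero (q * d)] {L : Type} [Field L] [NumberField L]
  [IsCyclotomicExtension {q} ℚ L] {K : IntermediateField ℚ L}

/-- **the `L`-function of the lattice twist** -/
theorem ana_J (hKD : S_KD) (hH : S_HECKE) (hPR : S_PRIM)
    {s t : ℚ → ℤ} {Op Om : ℝ} (hSy : Sy s t Op Om)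
    (hK : HypK s (fun l => ap E14 l) q L K) (hqp : IsPrimePow q) {D : ℤ}
    (hDsq : Squarefree D) (hD4 : D % 4 = 1) (hD : D.natAbs = d)
    (S : Subgroup (ZMod q)ˣ)
    (hd : ∀ p : ℕ, p.Prime → p ∣ d → ¬ p ∣ 14 * q ∧ ∀ t : (ZMod q)ˣ, (t : ZMod q) = (p : ZMod q) →
      ∀ u ∈ S, mkG q L K u ∈ Subgroup.zpowers (mkG q L K t))
    {g : ℕ} (ρ : (ZMod q)ˣ →* GL (Fin g) ℤ) (hρ : ∀ u ∈ HH q L K, ρ u = 1)
    (hinv : ∀ x : Fin g → ℤ, (∀ u ∈ S,
      (ρ u : Matrix (Fin g) (Fin g) ℤ).mulVec x = x) → x = 0) :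
    ∃ F : ℂ → ℂ, Differentiable ℂ F ∧
      (∀ z : ℂ, 3 / 2 < z.re → HasProd (fun p : Nat.Primes => euler ρ (WM D) z p) (F z)) ∧
      ∃ r : ℚ, r ≠ 0 ∧ padicValRat 2 r = 0 ∧
        F 1 = (r : ℂ) * (((2 * (if 0 < D then Op else Om) / √|(D : ℝ)|) ^ g : ℝ) : ℂ) := by
  have hdsq : Squarefree d := by rw [← hD]; exact Int.squarefree_natAbs.2 hDsq
  have hqd : q.Coprime d := by
    refine Nat.coprime_of_dvd ?_
    intro p hp hpq hpd
    exact (hd p hp hpd).1 (dvd_mul_of_dvd_right hpq _)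
  have hd14 : d.Coprime 14 := by
    refine Nat.coprime_of_dvd ?_
    intro p hp hpd hp14
    exact (hd p hp hpd).1 (dvd_mul_of_dvd_left hp14 _)
  obtain ⟨δ, hδp, hδk, hδ1, hδj⟩ := hKD D hDsq hD4 d hD.symm
  have hδ : ∀ u : (ZMod d)ˣ, δ (u : ZMod d) = 1 ∨ δ (u : ZMod d) = -1 := by
    intro u
    rw [hδj u]
    have hco : IsCoprime (((u : ZMod d).val : ℤ)) (d : ℤ) :=
      Nat.isCoprime_iff_coprime.2 (ZMod.val_coe_unit_coprime u)
    rcases jacobiSym.trichotomy ((u : ZMod d).val : ℤ) d with h | h | h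
    · exfalso
      rw [jacobiSym.eq_zero_iff_not_coprime] at h
      exact h (Int.isCoprime_iff_gcd_eq_one.1 hco)
    · left; rw [h]; push_cast; rfl
    · right; rw [h]; push_cast; rfl
  have hco : (q * d).Coprime 14 := Nat.Coprime.mul_left hK.hco hd14
  obtain ⟨G, hG⟩ := exists_GG hco
  have hfG : Fintype (GG q L K) := Fintype.ofFinite _
  obtain ⟨ψ, hψS, hψdet, hψπ⟩ := exists_charsS ρ hρ S hinv
  have hψ1 : ∀ i, ψ i ≠ 1 := by
    intro i hi
    obtain ⟨u, _, hu⟩ := hψS i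
    exact hu (by rw [hi, MonoidHom.one_apply])
  obtain ⟨r, hr0, hrv, hr⟩ := val_J hH hPR hSy hK hqp hD hdsq (fun p hp hpd => (hd p hp hpd).1)
    hδp hδ1 hδ (fun χ => (hG χ).2.2) ψ hψ1 (fun i p hp hpd t ht h1 => by
      obtain ⟨u, hu, hne⟩ := hψS i
      obtain ⟨k, hk⟩ := Subgroup.mem_zpowers_iff.1 ((hd p hp hpd).2 t ht u hu)
      apply hne
      rw [← hk, map_zpow, h1, one_zpow]) (fun a ha => hψπ a ha)
  refine ⟨fun z => ∏ i, G (XX δ (cf q L K (ψ i))) z,
    Differentiable.fun_finsetProd fun i _ => (hG _).1, ?_, r, hr0, hrv, ?_⟩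
  · intro z hz
    have h1 := hasProd_prod (s := (univ : Finset (Fin g)))
      (fun i _ => (hG (XX δ (cf q L K (ψ i)))).2.1 z hz)
    refine h1.congr_fun fun p => Eq.symm ?_
    have hp := p.2
    have h2 : ∀ i, (XX δ (cf q L K (ψ i))).primitiveCharacter
        ((p : ℕ) : ZMod (XX δ (cf q L K (ψ i))).conductor) =
        (kr D p : ℂ) * (cf q L K (ψ i)).primitiveCharacter
          ((p : ℕ) : ZMod (cf q L K (ψ i)).conductor) := by
      intro i
      have h3 := (hPR q d hqd (cf q L K (ψ i)) δ hδp).2 p hp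
      rw [← hδk p hp]
      exact h3
    simp_rw [h2]
    rw [prod_inv_distrib]
    unfold euler
    congr 1
    by_cases hpq : (p : ℕ) ∣ q
    · have h3 : frob ρ (p : ℕ) = 0 := by
        unfold frob
        rw [dif_neg]
        intro h
        rw [Nat.Prime.coprime_iff_not_dvd hp] at h
        exact h hpq
      have h4 : ∀ i, (cf q L K (ψ i)).primitiveCharacter
          ((p : ℕ) : ZMod (cf q L K (ψ i)).conductor) = 0 := by
        intro i
        apply MulChar.map_nonunit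
        rw [ZMod.isUnit_iff_coprime, Nat.Prime.coprime_iff_not_dvd hp, not_not]
        exact hK.hs _ (cf_mem (ψ i)) (fun h => hψ1 i (cf_inj (h.trans cf_one.symm))) p hp hpq
      rw [h3]
      simp [h4]
    · have hcop : (p : ℕ).Coprime q := (Nat.Prime.coprime_iff_not_dvd hp).2 hpq
      have h3 : frob ρ (p : ℕ) =
          (ρ (ZMod.unitOfCoprime (p : ℕ) hcop) : Matrix (Fin g) (Fin g) ℤ) := by
        unfold frob
        rw [dif_pos hcop]
      have h4 : ∀ i, (cf q L K (ψ i)).primitiveCharacter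
          ((p : ℕ) : ZMod (cf q L K (ψ i)).conductor) =
          cf q L K (ψ i) ((ZMod.unitOfCoprime (p : ℕ) hcop : (ZMod q)ˣ) : ZMod q) := by
        intro i
        rw [prim_unit (cf q L K (ψ i)), ZMod.unitsMap_val, ZMod.coe_unitOfCoprime,
          ZMod.cast_natCast (cf q L K (ψ i)).conductor_dvd_level]
      rw [h3, hψdet]
      refine prod_congr rfl fun i _ => ?_
      rw [h4 i, ap_D hD4 hp]
      set X := cf q L K (ψ i) ((ZMod.unitOfCoprime (p : ℕ) hcop : (ZMod q)ˣ) : ZMod q) with hX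
      have hp0 : ((p : ℕ) : ℂ) ≠ 0 := by exact_mod_cast hp.ne_zero
      have h5 : ((p : ℕ) : ℂ) ^ (1 - 2 * z) = ((p : ℕ) : ℂ) * ((p : ℕ) : ℂ) ^ (-2 * z) := by
        rw [show (1 - 2 * z) = 1 + (-2 * z) by ring, Complex.cpow_add _ _ hp0, Complex.cpow_one]
      by_cases hpD : ((p : ℕ) : ℤ) ∣ D
      · have h6 : kr D (p : ℕ) = 0 := by
          have h7 : δ ((p : ℕ) : ZMod d) = 0 := by
            apply MulChar.map_nonunit
            rw [ZMod.isUnit_iff_coprime, Nat.Prime.coprime_iff_not_dvd hp, not_not, ← hD]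
            exact Int.natCast_dvd.1 hpD
          rw [hδk p hp] at h7
          exact_mod_cast h7
        rw [h6, if_pos ((disc_dvd hD4 hp).2 (Or.inr hpD))]
        push_cast
        ring
      · have h6 : (kr D (p : ℕ) : ℂ) ^ 2 = 1 := by
          have h7 : ((p : ℕ) : ZMod d) = ((ZMod.unitOfCoprime (p : ℕ) (by
            rw [Nat.Prime.coprime_iff_not_dvd hp, ← hD]
            exact fun h => hpD (Int.natCast_dvd.2 h)) : (ZMod d)ˣ) : ZMod d) := by
            rw [ZMod.coe_unitOfCoprime]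
          rw [← hδk p hp, h7]
          rcases hδ (ZMod.unitOfCoprime (p : ℕ) (by
            rw [Nat.Prime.coprime_iff_not_dvd hp, ← hD]
            exact fun h => hpD (Int.natCast_dvd.2 h))) with h | h
          · rw [h, one_pow]
          · rw [h]; norm_num
        by_cases hp14 : (p : ℕ) ∣ 14
        · rw [if_pos hp14, if_pos ((disc_dvd hD4 hp).2 (Or.inl hp14))]
          push_cast
          ring
        · rw [if_neg hp14, if_neg (by
            rw [disc_dvd hD4 hp]
            rintro (h | h)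
            · exact hp14 h
            · exact hpD h), h5]
          push_cast
          linear_combination (((p : ℕ) : ℂ) * X ^ 2 * ((p : ℕ) : ℂ) ^ (-2 * z)) * h6
  · rw [Fintype.card_fin] at hr
    exact hr

end

end Pool.Agent.Helper891_XR
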