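import Pool.Agent.R431.T.Tr
import Pool.Agent.Helper891_XR.Xd

/-!
# The algebraic side for the twists of `X_0(14)`, relative form
-/

set_option autoImplicit false

namespace Pool.Agent.Helper891_XR

open WeierstrassCurve NumberField IsDedekindDomain NumberField.InfinitePlace

open Pool.Agent.Y702.A Pool.Agent.Y655.XT Pool.Agent.R431.T

open Pool.Agent.Y682 (NCl gc)

open Pool.Agent.Y700 (WM)

open Pool.Agent.TH841.SH.D (Pt act Gal Coch IsCoc IsCob LocTriv cob)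

section main

variable {D : ℤ} (hD4 : D % 4 = 1) (K : Type) [Field K] [NumberField K]
  (hre : ∀ w : InfinitePlace K, w.IsReal)
  (hcl : Odd (Nat.card (NCl K))) (hodd : Odd (Module.finrank ℚ K))
  (hp2 : (Ideal.span {((2 : ℕ) : 𝓞 K)}).IsPrime) (hp7 : (Ideal.span {((7 : ℕ) : 𝓞 K)}).IsPrime)
  (U : Subgroup (Gal ℚ)) (e₀ : K →+* AlgebraicClosure ℚ)
  (hU : ∀ σ ∈ U, ∃ γ : K ≃+* K, (∀ x, σ (e₀ x) = e₀ (γ x)) ∧
    ∀ p : ℕ, p.Prime → (p : ℤ) ∣ D → ∀ v : HeightOneSpectrum (𝓞 K), (p : 𝓞 K) ∈ v.asIdeal →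
      ∀ x, v.valuation K (γ x) = v.valuation K x)

include hD4 hre hcl hodd hp2 hp7 hU in
/-- the algebraic side for one action -/
theorem alg_one' (g : ℕ) (R : Gal ℚ →* GL (Fin g) ℤ)
    (hR₀ : ∀ σ : Gal ℚ, (∀ x : K, σ (e₀ x) = e₀ x) → R σ = 1)
    (hinv : ∀ x : Fin g → ℤ, (∀ σ ∈ U, (R σ : Matrix (Fin g) (Fin g) ℤ).mulVec x = x) → x = 0) :
    (Finite (ptsA (WM D) R) ∧ Odd (Nat.card (ptsA (WM D) R)) ∧ Finite (U.map R)) ∧
    ∀ f : CochA (WM D) g, IsShaCocA (WM D) R f → ∀ k : ℕ, IsCobA (WM D) R (2 ^ k • f) →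
      IsCobA (WM D) R f := by
  have hDo : Odd D := Int.odd_iff.2 (by omega)
  have hEV : Pool.Agent.Y682.XF.CVD ℚ D • EQ (WM D) = EQ (VD D) := by
    show _ = (VD D).map (Int.castRingHom ℚ)
    rw [vd_map]
    exact Pool.Agent.Y682.XF.cvd_eq ℚ hD4
  have hΔ : (EQ (VD D)).Δ ≠ 0 := by
    show ((VD D).map (Int.castRingHom ℚ)).Δ ≠ 0
    rw [vd_map]
    refine Pool.Agent.Y682.XF.gc_disc_ne ℚ ?_
    rintro rfl
    norm_num at hD4
  let I : Iso (EQ (WM D)) (EQ (VD D)) := isoVR (vr_of_smul hEV) hΔ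
  obtain ⟨⟨h1, h2, h2f⟩, h3⟩ := alg_W (D := D) K hre hcl hodd hp2 hp7 hDo U e₀ hU g R hR₀ hinv
  have h1' : Finite (ptsA (VD D) R) := h1
  have h2' : Odd (Nat.card (ptsA (VD D) R)) := h2
  refine ⟨⟨Finite.of_equiv _ (iso_pts I R), by rw [← Nat.card_congr (iso_pts I R)]; exact h2', h2f⟩, ?_⟩
  refine iso_res I R ?_
  intro f hf k hk
  obtain ⟨P, hP⟩ := hk
  exact h3 f hf.1.1 hf.1.2 (fun p _ => by
    refine ⟨DivisionRing.toRatAlgebra, fun ι => ?_⟩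
    obtain ⟨P, hP⟩ := hf.2.1 p ι
    refine ⟨P, fun τ σ hτ hσ i => ?_⟩
    have h2 := congrFun (hP τ σ hτ) i
    rw [hσ, Units.val_one, mat_one] at h2
    exact h2) (by
    refine ⟨DivisionRing.toRatAlgebra, fun ι => ?_⟩
    obtain ⟨P, hP⟩ := hf.2.2 ι
    refine ⟨P, fun τ σ hτ hσ i => ?_⟩
    have h2 := congrFun (hP τ σ hτ) i
    rw [hσ, Units.val_one, mat_one] at h2
    exact h2) k P hP

include hD4 hre hcl hodd hp2 hp7 hU in
/-- **the algebraic side** -/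
theorem alg_D' (g : ℕ) (R : Gal ℚ →* GL (Fin g) ℤ)
    (hR₀ : ∀ σ : Gal ℚ, (∀ x : K, σ (e₀ x) = e₀ x) → R σ = 1)
    (hinv : ∀ x : Fin g → ℤ, (∀ σ ∈ U, (R σ : Matrix (Fin g) (Fin g) ℤ).mulVec x = x) → x = 0) :
    (Finite (ptsA (WM D) R) ∧ Odd (Nat.card (ptsA (WM D) R))) ∧
    (Finite (ptsA (WM D) ((contra g).comp R)) ∧ Odd (Nat.card (ptsA (WM D) ((contra g).comp R)))) ∧
    ∀ f : CochA (WM D) g, IsShaCocA (WM D) R f → ∀ k : ℕ, IsCobA (WM D) R (2 ^ k • f) →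
      IsCobA (WM D) R f := by
  obtain ⟨⟨h1, h1', hfin⟩, h2⟩ := alg_one' hD4 K hre hcl hodd hp2 hp7 U e₀ hU g R hR₀ hinv
  obtain ⟨⟨h3, h3', -⟩, -⟩ := alg_one' hD4 K hre hcl hodd hp2 hp7 U e₀ hU g ((contra g).comp R)
    (fun σ hσ => by
      show contra g (R σ) = 1
      rw [hR₀ σ hσ, map_one])
    (fun x hx => by
      refine dual_inv (H := U.map R)
        (fun x hx => hinv x fun σ hσ => hx (R σ) ⟨σ, hσ, rfl⟩) x ?_
      rintro _ ⟨σ, hσ, rfl⟩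
      have h4 := hx σ⁻¹ (inv_mem hσ)
      have h5 : (((contra g).comp R) σ⁻¹ : Matrix (Fin g) (Fin g) ℤ) =
          ((R σ : GL (Fin g) ℤ) : Matrix (Fin g) (Fin g) ℤ).transpose := by
        show (((R σ⁻¹)⁻¹ : GL (Fin g) ℤ) : Matrix (Fin g) (Fin g) ℤ).transpose = _
        rw [map_inv, inv_inv]
      rw [h5] at h4
      exact h4)
  exact ⟨⟨h1, h1'⟩, ⟨h3, h3'⟩, h2⟩

end main

end Pool.Agent.Helper891_XR
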