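import Pool.Agent.Helper891_EG.La

/-!
# The powers of the Frobenius automorphism in the layers of the cyclotomic `ℤ₃`-extension
-/

set_option autoImplicit false
set_option linter.unusedSectionVars false
set_option linter.style.haveILetI false

namespace Pool.Agent.Helper891_XR

open NumberField IsDedekindDomain Module
open Pool.Agent.Helper891_EG (NS exists_comp)
open Pool.Agent.Helper891_EG.Fr Pool.Agent.Helper891_EG.La

/-- On `K` the automorphism `σ` is a power of the Frobenius automorphism at `p`, i.e. of the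
automorphism `φ` of the cyclotomic field `C` that raises the `q`-th roots of unity to the power `p`. -/
def FrobPow {C : Type} [Field C] [NumberField C] (q p : ℕ) (K : IntermediateField ℚ C)
    (σ : C ≃ₐ[ℚ] C) : Prop :=
  ∃ φ : C ≃ₐ[ℚ] C, (∀ ζ : C, ζ ^ q = 1 → φ ζ = ζ ^ p) ∧ ∃ k : ℕ, ∀ x ∈ K, σ x = (φ ^ k) x

lemma key_layer {m : ℕ} {C : Type} [Field C] [NumberField C]
    [IsCyclotomicExtension {3 ^ (m + 1)} ℚ C] {E F : IntermediateField ℚ C}
    (hcyc : IsCyclic (C ≃ₐ[ℚ] C)) (hEF : E ≤ F)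
    (hodd : Odd (finrank ℚ F)) {p : ℕ} (hp : p.Prime) (hp3 : p ≠ 3)
    (hmod : ¬ 9 * finrank ℚ E ∣ p ^ 2 - 1) {σ : C ≃ₐ[ℚ] C}
    (hσ : ∀ ζ : C, ζ ^ (3 ^ (m + 1)) = 1 → σ ζ = ζ ^ p) (B : Subgroup (C ≃ₐ[ℚ] C))
    (hσB : σ ∈ B) (hFB : F.fixingSubgroup ≤ B) : E.fixingSubgroup ≤ B := by
  have hz : NeZero (3 ^ (m + 1)) := ⟨pow_ne_zero _ (by norm_num)⟩
  have hgC : IsGalois ℚ C := IsCyclotomicExtension.isGalois {3 ^ (m + 1)} ℚ C
  have hcard : Nat.card (C ≃ₐ[ℚ] C) = 3 ^ m * 2 := by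
    rw [IsGalois.card_aut_eq_finrank, IsCyclotomicExtension.finrank (n := 3 ^ (m + 1)) C
      (Polynomial.cyclotomic.irreducible_rat (Nat.pos_of_ne_zero hz.out)),
      Nat.totient_prime_pow_succ Nat.prime_three]
  have hFi : F.fixingSubgroup.index = finrank ℚ F := by
    rw [IntermediateField.finrank_eq_fixingSubgroup_index]
  have hEi : E.fixingSubgroup.index = finrank ℚ E := by
    rw [IntermediateField.finrank_eq_fixingSubgroup_index]
  have hpow : ∀ A : Subgroup (C ≃ₐ[ℚ] C), A.index ∣ finrank ℚ F → ∃ s, s ≤ m ∧ A.index = 3 ^ s := by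
    intro A hA
    have h1 : Odd A.index := by
      obtain ⟨k, hk⟩ := hA
      rw [hk] at hodd
      exact (Nat.odd_mul.1 hodd).1
    have h2 : A.index ∣ 3 ^ m * 2 := by
      rw [← hcard]
      exact Subgroup.index_dvd_card A
    have h3 : A.index ∣ 3 ^ m := (Nat.Coprime.dvd_of_dvd_mul_right
      (Nat.coprime_two_right.2 h1) h2)
    obtain ⟨s, hs, hs'⟩ := (Nat.dvd_prime_pow Nat.prime_three).1 h3
    exact ⟨s, hs, hs'⟩
  obtain ⟨s, hs, hBs⟩ := hpow B (by
    rw [← hFi]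
    exact Subgroup.index_dvd_of_le hFB)
  obtain ⟨e, he, hEe⟩ := hpow E.fixingSubgroup (by
    rw [← hFi]
    exact Subgroup.index_dvd_of_le (IntermediateField.fixingSubgroup_antitone hEF))
  have hEc := E.fixingSubgroup.card_mul_index
  have hBc := B.card_mul_index
  rw [hEe, hcard] at hEc
  rw [hBs, hcard] at hBc
  by_cases hse : s ≤ e
  · apply le_of_card
    refine ⟨3 ^ (e - s), ?_⟩
    have h1 : 0 < 3 ^ e := by positivity
    apply Nat.eq_of_mul_eq_mul_right h1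
    have h2 : 3 ^ e = 3 ^ s * 3 ^ (e - s) := by rw [← pow_add, Nat.add_sub_cancel' hse]
    calc Nat.card B * 3 ^ e = (Nat.card B * 3 ^ s) * 3 ^ (e - s) := by rw [h2]; ring
      _ = (Nat.card E.fixingSubgroup * 3 ^ e) * 3 ^ (e - s) := by rw [hBc, hEc]
      _ = _ := by ring
  · exfalso
    apply hmod
    have hse' : e + 1 ≤ s := by omega
    rw [← hEi, hEe]
    refine num (m := m) hp hp3 (by omega) ?_
    have h1 : Nat.card B ∣ 2 * 3 ^ (m - e - 1) := by
      refine ⟨3 ^ (s - e - 1), ?_⟩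
      have h1 : 0 < 3 ^ (e + 1) := by positivity
      apply Nat.eq_of_mul_eq_mul_right h1
      have h2 : 3 ^ (s - e - 1) * 3 ^ (e + 1) = 3 ^ s := by
        rw [← pow_add]
        congr 1
        omega
      have h3 : 3 ^ (m - e - 1) * 3 ^ (e + 1) = 3 ^ m := by
        rw [← pow_add]
        congr 1
        omega
      calc 2 * 3 ^ (m - e - 1) * 3 ^ (e + 1) = 2 * (3 ^ (m - e - 1) * 3 ^ (e + 1)) := by ring
        _ = Nat.card B * 3 ^ s := by rw [h3, hBc]; ring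
        _ = _ := by rw [← h2]; ring
    have h2 : σ ^ (2 * 3 ^ (m - e - 1)) = 1 := by
      obtain ⟨k, hk⟩ := h1
      have h3 : (⟨σ, hσB⟩ : B) ^ Nat.card B = 1 := pow_card_eq_one'
      have h4 : σ ^ Nat.card B = 1 := congrArg Subtype.val h3
      rw [hk, pow_mul, h4, one_pow]
    obtain ⟨ζ, hζ⟩ := IsCyclotomicExtension.exists_isPrimitiveRoot ℚ C
      (Set.mem_singleton (3 ^ (m + 1))) hz.out
    have h3 : ∀ k : ℕ, (σ ^ k) ζ = ζ ^ (p ^ k) := by
      intro k
      induction k with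
      | zero => rw [pow_zero, pow_zero, pow_one, AlgEquiv.one_apply]
      | succ k ih =>
        rw [pow_succ', AlgEquiv.mul_apply, ih, map_pow, hσ ζ hζ.pow_eq_one, ← pow_mul,
          pow_succ']
    have h4 := h3 (2 * 3 ^ (m - e - 1))
    rw [h2, AlgEquiv.one_apply] at h4
    have h5 : ζ ^ 1 = ζ ^ (p ^ (2 * 3 ^ (m - e - 1))) := by rw [pow_one]; exact h4
    have h6 : IsOfFinOrder ζ := isOfFinOrder_iff_pow_eq_one.2
      ⟨3 ^ (m + 1), by positivity, hζ.pow_eq_one⟩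
    have h7 := h6.pow_eq_pow_iff_modEq.1 h5
    rw [← hζ.eq_orderOf] at h7
    exact h7.symm

/-- **the automorphisms over `E` are powers of the Frobenius automorphism on `F`** -/
theorem frob_layer {m : ℕ} {C : Type} [Field C] [NumberField C]
    [IsCyclotomicExtension {3 ^ (m + 1)} ℚ C] {E F : IntermediateField ℚ C} (hEF : E ≤ F)
    (hodd : Odd (finrank ℚ F)) {p : ℕ} (hp : p.Prime) (hp3 : p ≠ 3)
    (hmod : ¬ 9 * finrank ℚ E ∣ p ^ 2 - 1) (τ : C ≃ₐ[ℚ] C) (hτ : ∀ x ∈ E, τ x = x) :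
    FrobPow (3 ^ (m + 1)) p F τ := by
  have hz : NeZero (3 ^ (m + 1)) := ⟨pow_ne_zero _ (by norm_num)⟩
  have hcu : IsCyclic (ZMod (3 ^ (m + 1)))ˣ :=
    ZMod.isCyclic_units_of_prime_pow 3 Nat.prime_three (by norm_num) (m + 1)
  have hcC : IsCyclic (C ≃ₐ[ℚ] C) := by
    have e := IsCyclotomicExtension.autEquivPow C
      (Polynomial.cyclotomic.irreducible_rat (n := 3 ^ (m + 1)) (Nat.pos_of_ne_zero hz.out))
    exact isCyclic_of_surjective e.symm e.symm.surjective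
  have hpn : p.Coprime (3 ^ (m + 1)) :=
    Nat.Coprime.pow_right _ ((Nat.coprime_primes hp Nat.prime_three).2 hp3)
  obtain ⟨φ, hφ⟩ := exists_frob (C := C) hpn
  have hcomm : ∀ a b : C ≃ₐ[ℚ] C, a * b = b * a := by
    let _ : CommGroup (C ≃ₐ[ℚ] C) := IsCyclic.commGroup
    exact fun a b => mul_comm a b
  let B : Subgroup (C ≃ₐ[ℚ] C) :=
    { carrier := {τ | ∃ k : ℤ, ∀ x ∈ F, τ x = (φ ^ k) x}
      one_mem' := ⟨0, fun x _ => by rw [zpow_zero]⟩
      mul_mem' := by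
        rintro τ τ' ⟨k, hk⟩ ⟨k', hk'⟩
        refine ⟨k + k', fun x hx => ?_⟩
        rw [AlgEquiv.mul_apply, hk' x hx]
        have h1 : τ ((φ ^ k') x) = (φ ^ k') (τ x) := by
          rw [← AlgEquiv.mul_apply, hcomm, AlgEquiv.mul_apply]
        rw [h1, hk x hx, ← AlgEquiv.mul_apply, ← zpow_add, add_comm]
      inv_mem' := by
        rintro τ ⟨k, hk⟩
        refine ⟨-k, fun x hx => ?_⟩
        have h1 : τ⁻¹ ((φ ^ k) x) = x := by
          rw [← hk x hx, ← AlgEquiv.mul_apply, inv_mul_cancel, AlgEquiv.one_apply]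
        have h2 : (φ ^ (-k)) ((φ ^ k) (τ⁻¹ x)) = τ⁻¹ x := by
          rw [← AlgEquiv.mul_apply, ← zpow_add, neg_add_cancel, zpow_zero, AlgEquiv.one_apply]
        have h3 : (φ ^ k) (τ⁻¹ x) = τ⁻¹ ((φ ^ k) x) := by
          rw [← AlgEquiv.mul_apply, hcomm, AlgEquiv.mul_apply]
        rw [h3, h1] at h2
        exact h2.symm }
  have hφB : φ ∈ B := ⟨1, fun x _ => by rw [zpow_one]⟩
  have hFB : F.fixingSubgroup ≤ B := by
    intro τ hτ
    refine ⟨0, fun x hx => ?_⟩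
    rw [zpow_zero, AlgEquiv.one_apply]
    exact (IntermediateField.mem_fixingSubgroup_iff F τ).1 hτ x hx
  have hτE : τ ∈ E.fixingSubgroup := by
    rw [IntermediateField.mem_fixingSubgroup_iff]
    exact hτ
  obtain ⟨k, hk⟩ := key_layer hcC hEF hodd hp hp3 hmod hφ B hφB hFB hτE
  obtain ⟨n, hn⟩ : ∃ n : ℕ, φ ^ n = φ ^ k := by
    have h1 : φ ^ k ∈ Subgroup.zpowers φ := ⟨k, rfl⟩
    rw [← mem_powers_iff_mem_zpowers] at h1
    exact h1
  exact ⟨φ, hφ, n, fun x hx => by rw [hn]; exact hk x hx⟩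

/-- the powers of the Frobenius automorphism preserve the places -/
theorem ns_of_frobPow {q : ℕ} [NeZero q] {C : Type} [Field C] [NumberField C]
    [IsCyclotomicExtension {q} ℚ C] {F : IntermediateField ℚ C} {p : ℕ} [Fact p.Prime]
    {τ : C ≃ₐ[ℚ] C} (h : FrobPow q p F τ) (j : C →+* PadicAlgCl p) (x : C) (hx : x ∈ F) :
    ‖j (τ x)‖ = ‖j x‖ := by
  obtain ⟨φ, hφ, k, hk⟩ := h
  have h1 : NS φ p := ns_frob hφ
  rw [hk x hx]
  clear hk hx
  induction k generalizing x with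
  | zero => rw [pow_zero, AlgEquiv.one_apply]
  | succ k ih =>
    rw [pow_succ', AlgEquiv.mul_apply]
    exact (h1 j _).trans (ih x)

end Pool.Agent.Helper891_XR
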