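import Pool.Agent.R431.T.Fin
import Pool.Agent.Helper891_XR.Xf
import Pool.Agent.Helper891_XR.Xg
import Pool.Agent.Helper891_XR.Xh

/-!
# The 2-part of the Birch and Swinnerton-Dyer conjecture for `E_D ⊗ M`, relative form
-/

set_option autoImplicit false

open Finset NumberField NumberField.InfinitePlace IsDedekindDomain WeierstrassCurve MeasureTheory
  Filter Topology IsCyclotomicExtension.Rat H300.HW

namespace Pool.Agent.Helper891_XR

open scoped Classical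

open Pool.Agent.Y702.A (ptsA IsShaCocA IsCobA CochA)

open Pool.Agent.W97.MT (ap E14 II)

open Pool.Agent.Y700 (WM)

open Pool.Agent.Y682 (NCl)

open Pool.Agent.TH841.SH.D (Gal)

open Pool.Agent.Y682.XT Pool.Agent.Y682.XD Pool.Agent.Y682.XF

open Pool.Agent.R431.T (euler contra)

section kappa

variable {q : ℕ} [NeZero q] (M : Type) [Field M] [NumberField M] [IsCyclotomicExtension {q} ℚ M]
  (κ : Gal ℚ →* (ZMod q)ˣ)
  (hκ : ∀ (σ : Gal ℚ) (ζ : AlgebraicClosure ℚ), ζ ^ q = 1 → σ ζ = ζ ^ ((κ σ : ZMod q)).val)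

include hκ in
/-- the cyclotomic character and the automorphisms of the cyclotomic field -/
theorem kappa_act (i : M →+* AlgebraicClosure ℚ) (σ : Gal ℚ) (x : M) :
    σ (i x) = i ((galEquivZMod q M).symm (κ σ) x) := by
  have hgal : IsGalois ℚ M := IsCyclotomicExtension.isGalois {q} ℚ M
  let _ : Algebra M (AlgebraicClosure ℚ) := i.toAlgebra
  have : IsScalarTower ℚ M (AlgebraicClosure ℚ) := IsScalarTower.of_algebraMap_eq fun x => by
    show _ = i (algebraMap ℚ M x)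
    rw [eq_ratCast, eq_ratCast, map_ratCast]
  set τ : M ≃ₐ[ℚ] M := σ.restrictNormal M with hτ
  have h1 : ∀ x : M, i (τ x) = σ (i x) := fun x => AlgEquiv.restrictNormal_commutes σ M x
  have hz := IsCyclotomicExtension.zeta_spec q ℚ M
  set ζ := IsCyclotomicExtension.zeta q ℚ M with hζ
  have h3 := galEquivZMod_apply_of_pow_eq q M τ (x := ζ) hz.pow_eq_one
  have h4 : galEquivZMod q M τ = κ σ := by
    have h5 : i (τ ζ) = (i ζ) ^ ((κ σ : ZMod q)).val := by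
      rw [h1]
      exact hκ σ (i ζ) (by rw [← map_pow, hz.pow_eq_one, map_one])
    rw [h3, ← map_pow] at h5
    have h6 := i.injective h5
    have h7 : ((galEquivZMod q M τ : (ZMod q)ˣ) : ZMod q).val = ((κ σ : ZMod q)).val :=
      hz.pow_inj (ZMod.val_lt _) (ZMod.val_lt _) h6
    exact Units.ext (ZMod.val_injective q h7)
  rw [← h4, MulEquiv.symm_apply_apply, h1]

end kappa

/-- the Frobenius automorphism -/
lemma frob_eq {q : ℕ} [NeZero q] {M : Type} [Field M] [NumberField M]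
    [IsCyclotomicExtension {q} ℚ M] {p : ℕ} {φ : M ≃ₐ[ℚ] M}
    (hφ : ∀ ζ : M, ζ ^ q = 1 → φ ζ = ζ ^ p) {t : (ZMod q)ˣ} (ht : (t : ZMod q) = (p : ZMod q)) :
    φ = (galEquivZMod q M).symm t := by
  rw [MulEquiv.eq_symm_apply]
  have hz := IsCyclotomicExtension.zeta_spec q ℚ M
  set ζ := IsCyclotomicExtension.zeta q ℚ M with hζ
  have h3 := galEquivZMod_apply_of_pow_eq q M φ (x := ζ) hz.pow_eq_one
  rw [hφ ζ hz.pow_eq_one] at h3
  have h4 : ζ ^ p = ζ ^ (t : ZMod q).val := by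
    rw [ht, ZMod.val_natCast, ← pow_eq_pow_mod p hz.pow_eq_one]
  rw [h4] at h3
  have h5 := hz.pow_inj (ZMod.val_lt _) (ZMod.val_lt _) h3
  exact Units.ext (ZMod.val_injective q h5.symm)

/-- **the main theorem** -/
theorem main' (q : ℕ) [NeZero q] (hq : IsPrimePow q) (hco : q.Coprime 14) (M : Type)
    [Field M] [NumberField M] [IsCyclotomicExtension {q} ℚ M] (E K : IntermediateField ℚ M)
    (hEK : E ≤ K) (hodd : Odd (Module.finrank ℚ K))
    (hcl : 3 ∣ q ∨ ((Ideal.span {((2 : ℕ) : 𝓞 K)}).IsPrime ∧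
      (Ideal.span {((7 : ℕ) : 𝓞 K)}).IsPrime ∧ Odd (Nat.card (NCl K))))
    (D : ℤ) (hDsq : Squarefree D) (hD4 : D % 4 = 1)
    (hDp : ∀ p : ℕ, p.Prime → (p : ℤ) ∣ D → ¬ p ∣ 14 * q ∧
      ((∀ σ : M ≃ₐ[ℚ] M, (∀ x ∈ E, σ x = x) → FrobPow q p K σ) ∨
        (3 ∣ q ∧ ¬ 9 * Module.finrank ℚ E ∣ p ^ 2 - 1)))
    (g : ℕ) (ρ : (ZMod q)ˣ →* GL (Fin g) ℤ)
    (hρ : ∀ σ : M ≃ₐ[ℚ] M, (∀ x ∈ K, σ x = x) → ρ (galEquivZMod q M σ) = 1)
    (hinv : ∀ x : Fin g → ℤ, (∀ σ : M ≃ₐ[ℚ] M, (∀ y ∈ E, σ y = y) →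
      (ρ (galEquivZMod q M σ) : Matrix (Fin g) (Fin g) ℤ).mulVec x = x) → x = 0)
    (κ : Gal ℚ →* (ZMod q)ˣ)
    (hκ : ∀ (σ : Gal ℚ) (ζ : AlgebraicClosure ℚ), ζ ^ q = 1 → σ ζ = ζ ^ ((κ σ : ZMod q)).val) :
    ((Finite (ptsA (WM D) (ρ.comp κ)) ∧ Odd (Nat.card (ptsA (WM D) (ρ.comp κ)))) ∧
    (Finite (ptsA (WM D) ((contra g).comp (ρ.comp κ))) ∧
      Odd (Nat.card (ptsA (WM D) ((contra g).comp (ρ.comp κ))))) ∧
    ∀ f : CochA (WM D) g, IsShaCocA (WM D) (ρ.comp κ) f → ∀ k : ℕ,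
      IsCobA (WM D) (ρ.comp κ) (2 ^ k • f) → IsCobA (WM D) (ρ.comp κ) f) ∧
    ∃ F : ℂ → ℂ, Differentiable ℂ F ∧
      (∀ z : ℂ, 3 / 2 < z.re → HasProd (fun p : Nat.Primes => euler ρ (WM D) z p) (F z)) ∧
      ∃ r : ℚ, r ≠ 0 ∧ padicValRat 2 r = 0 ∧
        F 1 = (r : ℂ) * ((realPeriod (WM D) ^ g : ℝ) : ℂ) ∧ 0 < realPeriod (WM D) := by
  -- powers of three
  have hq3 : 3 ∣ q → ∃ n, q = 3 ^ (n + 1) := by
    intro h3
    obtain ⟨l, k, hl, hk, rfl⟩ := id hq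
    have hl' := hl.nat_prime
    have h4 : l = 3 := ((Nat.prime_dvd_prime_iff_eq Nat.prime_three hl').1
      (Nat.prime_three.dvd_of_dvd_pow h3)).symm
    subst h4
    exact ⟨k - 1, by rw [Nat.sub_add_cancel hk]⟩
  -- the field
  obtain ⟨h2, h7, hN⟩ : (Ideal.span {((2 : ℕ) : 𝓞 K)}).IsPrime ∧
      (Ideal.span {((7 : ℕ) : 𝓞 K)}).IsPrime ∧ Odd (Nat.card (NCl K)) := by
    rcases hcl with h3 | h
    · obtain ⟨n, hn⟩ := hq3 h3
      have key : ∀ (q' : ℕ) [NeZero q'] (M : Type) [Field M] [NumberField M]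
          [IsCyclotomicExtension {q'} ℚ M] (n : ℕ), q' = 3 ^ (n + 1) →
          ∀ (K' : IntermediateField ℚ M), Odd (Module.finrank ℚ K') →
          (Ideal.span {((2 : ℕ) : 𝓞 K')}).IsPrime ∧
          (Ideal.span {((7 : ℕ) : 𝓞 K')}).IsPrime ∧ Odd (Nat.card (NCl K')) := by
        intro q' _ M _ _ _ n hn K' hodd'
        subst hn
        exact three_hyp n M K' hodd'
      exact key q M n hn K hodd
    · exact h
  -- the primes that divide the twist
  have hfrob : ∀ p : ℕ, p.Prime → (p : ℤ) ∣ D → ∀ σ : M ≃ₐ[ℚ] M, (∀ x ∈ E, σ x = x) →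
      FrobPow q p K σ := by
    intro p hp hpD
    obtain ⟨h14, h | ⟨h3, h9⟩⟩ := hDp p hp hpD
    · exact h
    · obtain ⟨n, hn⟩ := hq3 h3
      have hp3 : p ≠ 3 := by
        rintro rfl
        exact h14 (dvd_mul_of_dvd_right h3 _)
      have key : ∀ (q' : ℕ) [NeZero q'] (M : Type) [Field M] [NumberField M]
          [IsCyclotomicExtension {q'} ℚ M] (n : ℕ), q' = 3 ^ (n + 1) →
          ∀ (E' K' : IntermediateField ℚ M), E' ≤ K' → Odd (Module.finrank ℚ K') →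
          ¬ 9 * Module.finrank ℚ E' ∣ p ^ 2 - 1 → ∀ σ : M ≃ₐ[ℚ] M, (∀ x ∈ E', σ x = x) →
          FrobPow q' p K' σ := by
        intro q' _ M _ _ _ n hn E' K' hEK' hodd' h9' σ hσ
        subst hn
        exact frob_layer hEK' hodd' hp hp3 h9' σ hσ
      exact key q M n hn E K hEK hodd h9
  have hd0 : D.natAbs ≠ 0 := by omega
  have hz1 : NeZero D.natAbs := ⟨hd0⟩
  have hz2 : NeZero (q * D.natAbs) := ⟨Nat.mul_ne_zero (NeZero.ne q) hd0⟩
  obtain ⟨s, t, P, Op, Om, hSy, g2, g3, hP⟩ := exists_syP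
  have hypK : HypK s (fun l => ap E14 l) q M K :=
    Pool.Agent.Y682.XD.hypK_of Pool.Agent.Y461.XD.s_apev hSy hq hco hodd h2 h7 hN
  have hgen : ∀ p : ℕ, p.Prime → p ∣ D.natAbs → ¬ p ∣ 14 * q ∧
      ∀ t : (ZMod q)ˣ, (t : ZMod q) = (p : ZMod q) →
        ∀ u ∈ HH q M E, mkG q M K u ∈ Subgroup.zpowers (mkG q M K t) := by
    intro p hp hpd
    have hpD : (p : ℤ) ∣ D := Int.natCast_dvd.2 hpd
    refine ⟨(hDp p hp hpD).1, fun t ht u hu => ?_⟩
    rw [mem_HH, IntermediateField.mem_fixingSubgroup_iff] at hu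
    obtain ⟨φ, hφ, k, hk⟩ := hfrob p hp hpD _ hu
    have h4 := frob_eq hφ ht
    refine ⟨(k : ℤ), ?_⟩
    show mkG q M K t ^ (k : ℤ) = mkG q M K u
    rw [zpow_natCast, ← map_pow, mkG_eq, mem_HH, map_mul, map_inv, map_pow, ← h4,
      IntermediateField.mem_fixingSubgroup_iff]
    intro x hx
    rw [AlgEquiv.mul_apply, hk x hx, ← AlgEquiv.mul_apply, inv_mul_cancel, AlgEquiv.one_apply]
  have hρ' : ∀ u ∈ HH q M K, ρ u = 1 := by
    intro u hu
    rw [mem_HH, IntermediateField.mem_fixingSubgroup_iff] at hu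
    have h4 := hρ ((galEquivZMod q M).symm u) (fun x hx => hu x hx)
    rwa [MulEquiv.apply_symm_apply] at h4
  have hinv' : ∀ x : Fin g → ℤ, (∀ u ∈ HH q M E,
      (ρ u : Matrix (Fin g) (Fin g) ℤ).mulVec x = x) → x = 0 := by
    intro x hx
    refine hinv x fun σ hσ => hx _ ?_
    rw [mem_HH, MulEquiv.symm_apply_apply, IntermediateField.mem_fixingSubgroup_iff]
    exact hσ
  -- the field is totally real
  obtain ⟨φ, -⟩ := exists_phi q M
  have hreal : ∀ w : InfinitePlace K, w.IsReal := real_place (φ := φ) hypK.hre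
  have hGal : IsGalois ℚ K := by
    have h1 : IsAbelianGalois ℚ M := IsCyclotomicExtension.isAbelianGalois {q} ℚ M
    exact @IsAbelianGalois.toIsGalois ℚ K _ _ (IntermediateField.algebra' K) inferInstance
  have hodd' : Odd (@Module.finrank ℚ K _ _ (DivisionRing.toRatAlgebra (R := K)).toModule) := by
    convert hodd
  let i : M →+* AlgebraicClosure ℚ := (IsAlgClosed.lift : M →ₐ[ℚ] AlgebraicClosure ℚ).toRingHom
  let U : Subgroup (Gal ℚ) := (HH q M E).comap κ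
  have hU : ∀ σ ∈ U, ∃ γ : K ≃+* K, (∀ x, σ ((i.comp (algebraMap K M)) x) =
      (i.comp (algebraMap K M)) (γ x)) ∧
      ∀ p : ℕ, p.Prime → (p : ℤ) ∣ D → ∀ v : HeightOneSpectrum (𝓞 K), (p : 𝓞 K) ∈ v.asIdeal →
        ∀ x, v.valuation K (γ x) = v.valuation K x := by
    intro σ hσ
    have hσ' : κ σ ∈ HH q M E := hσ
    rw [mem_HH, IntermediateField.mem_fixingSubgroup_iff] at hσ'
    set τ : M ≃ₐ[ℚ] M := (galEquivZMod q M).symm (κ σ) with hτ
    have hcomm : ∀ x : K, algebraMap K M (τ.restrictNormal K x) = τ (algebraMap K M x) :=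
      fun x => AlgEquiv.restrictNormal_commutes τ K x
    refine ⟨(τ.restrictNormal K : K ≃+* K), fun x => ?_, ?_⟩
    · show σ (i (algebraMap K M x)) = i (algebraMap K M (τ.restrictNormal K x))
      rw [hcomm]
      exact kappa_act M κ hκ i σ _
    · intro p hp hpD v hv
      have : Fact p.Prime := ⟨hp⟩
      refine fix_of_norm _ (fun j x => ?_) v hv
      obtain ⟨j', hj'⟩ := Pool.Agent.Helper891_EG.La.ext_emb (F := K) (algebraMap K M) j
      show ‖j (τ.restrictNormal K x)‖ = ‖j x‖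
      rw [← hj', ← hj', hcomm]
      exact ns_of_frobPow (hfrob p hp hpD τ hσ') j' _ x.2
  refine ⟨alg_D' hD4 K hreal hN hodd' h2 h7 U (i.comp (algebraMap K M)) hU g (ρ.comp κ) ?_ ?_, ?_⟩
  · intro σ hσ
    exact hρ' _ (Pool.Agent.R431.T.kappa_fix M κ hκ K i σ hσ)
  · intro x hx
    apply hinv'
    intro u hu
    obtain ⟨σ, rfl⟩ := Pool.Agent.R431.T.kappa_surj κ hκ u
    exact hx σ hu
  · obtain ⟨F, h1, h3, r, hr0, hrv, hr⟩ := ana_J Pool.Agent.Y812.XF.t_KD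
      Pool.Agent.Y688.XD.s_hecke Pool.Agent.Y44.XF.s_prim hSy hypK hq hDsq hD4 rfl (HH q M E) hgen
      ρ hρ' hinv'
    refine ⟨F, h1, h3, r, hr0, hrv, ?_, ?_⟩
    · rw [Pool.Agent.Y614.XF.perd P Op Om hSy.pos hSy.pos' g2 g3 hP D hD4]
      exact hr
    · rw [Pool.Agent.Y614.XF.perd P Op Om hSy.pos hSy.pos' g2 g3 hP D hD4]
      have hDR : (D : ℝ) ≠ 0 := by
        have : D ≠ 0 := by omega
        exact_mod_cast this
      have hsD : 0 < √|(D : ℝ)| := Real.sqrt_pos.2 (abs_pos.2 hDR)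
      refine div_pos (mul_pos two_pos ?_) hsD
      split_ifs
      · exact hSy.pos
      · exact hSy.pos'

end Pool.Agent.Helper891_XR
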